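import Pool.Agent.W2helper90.SM.Flat
import Pool.Agent.W2helper17.RT.SOB

/-!
# Project SM, piece APP: from smooth functions to `H¹` functions with bounded support
-/

set_option autoImplicit false

open MeasureTheory Set Filter Topology

namespace Pool.Agent.W2helper90.SM

open LTd (pd WGrad WGradC)

/-! ### products of test functions with `L²` functions supported in a ball -/

/-- a continuous function cut off sharply -/
noncomputable def cu {X : Type} [NormedAddCommGroup X] (R : ℝ) (ψ : X → ℝ) (z : X) : ℝ :=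
  (Metric.closedBall (0 : X) R).indicator ψ z

theorem cu_memLp {d : ℕ} (R : ℝ) {ψ : (Fin d → ℝ) → ℝ} (hψ : Continuous ψ) :
    MemLp (cu R ψ) 2 volume := by
  have hK : IsCompact (Metric.closedBall (0 : Fin d → ℝ) R) := isCompact_closedBall _ _
  obtain ⟨C, hC⟩ := hK.exists_bound_of_continuousOn hψ.continuousOn
  unfold cu
  show MemLp ((Metric.closedBall (0 : Fin d → ℝ) R).indicator ψ) 2 volume
  rw [memLp_indicator_iff_restrict Metric.isClosed_closedBall.measurableSet]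
  haveI : IsFiniteMeasure (volume.restrict (Metric.closedBall (0 : Fin d → ℝ) R)) :=
    ⟨by rw [Measure.restrict_apply_univ]; exact hK.measure_lt_top⟩
  refine MemLp.of_bound hψ.aestronglyMeasurable C ?_
  rw [ae_restrict_iff' Metric.isClosed_closedBall.measurableSet]
  exact ae_of_all _ fun z hz => hC z hz

theorem cu_mul {d : ℕ} {R : ℝ} (ψ : (Fin d → ℝ) → ℝ) {f : (Fin d → ℝ) → ℝ}
    (hf : ∀ z, R < ‖z‖ → f z = 0) (z : Fin d → ℝ) : ψ z * f z = cu R ψ z * f z := by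
  by_cases h : z ∈ Metric.closedBall (0 : Fin d → ℝ) R
  · rw [cu, Set.indicator_of_mem h]
  · rw [hf z (by rwa [mem_closedBall_zero_iff, not_le] at h), mul_zero, mul_zero]

theorem int_mul {d : ℕ} {R : ℝ} {ψ : (Fin d → ℝ) → ℝ} (hψ : Continuous ψ)
    {f : (Fin d → ℝ) → ℝ} (hfL : MemLp f 2 volume) (hf : ∀ z, R < ‖z‖ → f z = 0) :
    Integrable (fun z => ψ z * f z) := by
  have h := (cu_memLp R hψ).integrable_mul hfL
  refine h.congr (ae_of_all _ fun z => ?_)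
  exact (cu_mul ψ hf z).symm

/-- the volume of the ball in the variables `y` -/
noncomputable def vb (n : ℕ) (R : ℝ) : ℝ := (volume (Metric.closedBall (0 : Fin n → ℝ) R)).toReal

theorem vb_nonneg (n : ℕ) (R : ℝ) : 0 ≤ vb n R := ENNReal.toReal_nonneg

theorem norm_fy_le {m n : ℕ} (z : Fin (m + n) → ℝ) : ‖fy z‖ ≤ ‖z‖ := by
  refine (pi_norm_le_iff_of_nonneg (norm_nonneg _)).2 fun j => ?_
  exact norm_le_pi_norm z (Fin.natAdd m j)

/-- the norm of the cut off test functions -/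
theorem test_norm {m n : ℕ} (R : ℝ) (ξ : Fin n → ℝ) {φ : (Fin m → ℝ) → ℝ} (hφ : Continuous φ)
    (hφs : HasCompactSupport φ) :
    (∫ z, cu R (pc ξ φ) z ^ 2) + ∫ z, cu R (ps ξ φ) z ^ 2 ≤ vb n R * ∫ x, φ x ^ 2 := by
  have i1 := (cu_memLp R (cont_pc ξ hφ)).integrable_sq
  have i2 := (cu_memLp R (cont_ps ξ hφ)).integrable_sq
  rw [← integral_add i1 i2]
  set S : Set (Fin n → ℝ) := Metric.closedBall (0 : Fin n → ℝ) R with hS
  have hSm : MeasurableSet S := Metric.isClosed_closedBall.measurableSet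
  have hSf : volume S < ⊤ := (isCompact_closedBall _ _).measure_lt_top
  have i3 : Integrable fun z : P m n => φ z.1 ^ 2 * S.indicator (fun _ => (1 : ℝ)) z.2 := by
    refine Integrable.mul_prod (sq_int hφ hφs) ?_
    exact (integrable_indicator_iff hSm).2 (integrableOn_const hSf.ne)
  have i4 : Integrable fun z : Fin (m + n) → ℝ =>
      φ (fx z) ^ 2 * S.indicator (fun _ => (1 : ℝ)) (fy z) := by
    have := (Q_symm_mp m n).integrable_comp_of_integrable i3
    exact this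
  have h1 : ∫ z, (cu R (pc ξ φ) z ^ 2 + cu R (ps ξ φ) z ^ 2) ≤
      ∫ z : Fin (m + n) → ℝ, φ (fx z) ^ 2 * S.indicator (fun _ => (1 : ℝ)) (fy z) := by
    refine integral_mono (i1.add i2) i4 fun z => ?_
    show cu R (pc ξ φ) z ^ 2 + cu R (ps ξ φ) z ^ 2 ≤
      φ (fx z) ^ 2 * S.indicator (fun _ => (1 : ℝ)) (fy z)
    by_cases h : z ∈ Metric.closedBall (0 : Fin (m + n) → ℝ) R
    · have h' : fy z ∈ S := by
        rw [hS, mem_closedBall_zero_iff]
        rw [mem_closedBall_zero_iff] at h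
        exact (norm_fy_le z).trans h
      rw [cu, cu, Set.indicator_of_mem h, Set.indicator_of_mem h, Set.indicator_of_mem h', pc, ps,
        mul_pow, mul_pow, ← mul_add, Real.cos_sq_add_sin_sq]
    · rw [cu, cu, Set.indicator_of_notMem h, Set.indicator_of_notMem h]
      have : 0 ≤ φ (fx z) ^ 2 * S.indicator (fun _ => (1 : ℝ)) (fy z) :=
        mul_nonneg (sq_nonneg _) (Set.indicator_nonneg (fun _ _ => zero_le_one) _)
      simpa using this
  refine h1.trans (le_of_eq ?_)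
  rw [Q_fubini i4]
  have h2 : ∀ x : Fin m → ℝ, ∫ y : Fin n → ℝ, φ (fx (Fin.append x y)) ^ 2 *
      S.indicator (fun _ => (1 : ℝ)) (fy (Fin.append x y)) = vb n R * φ x ^ 2 := by
    intro x
    have h3 : ∀ y : Fin n → ℝ, φ (fx (Fin.append x y)) ^ 2 *
        S.indicator (fun _ => (1 : ℝ)) (fy (Fin.append x y)) =
        φ x ^ 2 * S.indicator (fun _ => (1 : ℝ)) y := fun y => by rw [fx_append, fy_append]
    simp only [h3]
    rw [integral_const_mul, integral_indicator hSm, setIntegral_const, smul_eq_mul, mul_one,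
      mul_comm]
    rfl
  simp only [h2]
  rw [integral_const_mul]

/-- real and imaginary parts -/
theorem occ_ri {m n N : ℕ} {A R : ℝ} (u : Fin N → (Fin (m + n) → ℝ) → ℂ)
    (hu : ∀ a, MemLp (u a) 2 volume) (hR : ∀ a z, R < ‖z‖ → u a z = 0) (h : OccC A u) :
    OccR A (Pool.Agent.W2helper17.RT.ri u) := by
  intro ξ φ hφ hφs
  have hre : ∀ a, MemLp (fun z => (u a z).re) 2 volume := fun a => (hu a).re
  have him : ∀ a, MemLp (fun z => (u a z).im) 2 volume := fun a => (hu a).im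
  have hRr : ∀ a z, R < ‖z‖ → (u a z).re = 0 := fun a z hz => by rw [hR a z hz]; rfl
  have hRi : ∀ a z, R < ‖z‖ → (u a z).im = 0 := fun a z hz => by rw [hR a z hz]; rfl
  obtain ⟨Ca, hCa⟩ : ∃ C : Fin N → ℝ, C = fun a => ∫ z, pc ξ φ z * (u a z).re := ⟨_, rfl⟩
  obtain ⟨Sa, hSa⟩ : ∃ C : Fin N → ℝ, C = fun a => ∫ z, ps ξ φ z * (u a z).re := ⟨_, rfl⟩
  obtain ⟨Cb, hCb⟩ : ∃ C : Fin N → ℝ, C = fun a => ∫ z, pc ξ φ z * (u a z).im := ⟨_, rfl⟩
  obtain ⟨Sb, hSb⟩ : ∃ C : Fin N → ℝ, C = fun a => ∫ z, ps ξ φ z * (u a z).im := ⟨_, rfl⟩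
  have j1 : ∀ a, Integrable fun z => pc ξ φ z * (u a z).re := fun a =>
    int_mul (cont_pc ξ hφ) (hre a) (hRr a)
  have j2 : ∀ a, Integrable fun z => ps ξ φ z * (u a z).re := fun a =>
    int_mul (cont_ps ξ hφ) (hre a) (hRr a)
  have j3 : ∀ a, Integrable fun z => pc ξ φ z * (u a z).im := fun a =>
    int_mul (cont_pc ξ hφ) (him a) (hRi a)
  have j4 : ∀ a, Integrable fun z => ps ξ φ z * (u a z).im := fun a =>
    int_mul (cont_ps ξ hφ) (him a) (hRi a)
  -- the complex integrals for `σ = ±1`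
  have key : ∀ (σ : ℝ), σ = 1 ∨ σ = -1 → ∀ a,
      ‖∫ z, ((φ (fx z) : ℝ) : ℂ) * Complex.exp ((dt (σ • ξ) (fy z) : ℝ) * Complex.I) * u a z‖ ^ 2 =
      (Ca a - σ * Sb a) ^ 2 + (σ * Sa a + Cb a) ^ 2 := by
    intro σ hσ a
    have hdt : ∀ z : Fin (m + n) → ℝ, dt (σ • ξ) (fy z) = σ * dt ξ (fy z) := by
      intro z
      unfold dt
      rw [Finset.mul_sum]
      exact Finset.sum_congr rfl fun j _ => by simp; ring
    have hcos : ∀ t : ℝ, Real.cos (σ * t) = Real.cos t := by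
      intro t
      rcases hσ with h | h <;> rw [h] <;> simp
    have hsin : ∀ t : ℝ, Real.sin (σ * t) = σ * Real.sin t := by
      intro t
      rcases hσ with h | h <;> rw [h] <;> simp
    have e1 : ∀ z, ((φ (fx z) : ℝ) : ℂ) * Complex.exp ((dt (σ • ξ) (fy z) : ℝ) * Complex.I) * u a z =
        (((pc ξ φ z * (u a z).re - σ * (ps ξ φ z * (u a z).im) : ℝ)) : ℂ) +
          ((σ * (ps ξ φ z * (u a z).re) + pc ξ φ z * (u a z).im : ℝ) : ℂ) * Complex.I := by
      intro z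
      rw [hdt, Complex.exp_mul_I, ← Complex.ofReal_cos, ← Complex.ofReal_sin, hcos, hsin]
      apply Complex.ext
      · simp [pc, ps]
        ring
      · simp [pc, ps]
        ring
    have i1 : Integrable fun z => pc ξ φ z * (u a z).re - σ * (ps ξ φ z * (u a z).im) :=
      (j1 a).sub ((j4 a).const_mul σ)
    have i2 : Integrable fun z => σ * (ps ξ φ z * (u a z).re) + pc ξ φ z * (u a z).im :=
      ((j2 a).const_mul σ).add (j3 a)
    simp only [e1]
    rw [integral_add i1.ofReal (i2.ofReal.mul_const _), integral_mul_const,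
      integral_complex_ofReal, integral_complex_ofReal,
      ← Complex.normSq_eq_norm_sq, Complex.normSq_apply]
    have e2 : ∫ z, (pc ξ φ z * (u a z).re - σ * (ps ξ φ z * (u a z).im)) = Ca a - σ * Sb a := by
      rw [integral_sub (j1 a) ((j4 a).const_mul σ), integral_const_mul, hCa, hSb]
    have e3 : ∫ z, (σ * (ps ξ φ z * (u a z).re) + pc ξ φ z * (u a z).im) = σ * Sa a + Cb a := by
      rw [integral_add ((j2 a).const_mul σ) (j3 a), integral_const_mul, hSa, hCb]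
    rw [e2, e3]
    simp
    ring
  have h1 := h ((1 : ℝ) • ξ) φ hφ hφs
  have h2 := h ((-1 : ℝ) • ξ) φ hφ hφs
  rw [Finset.sum_congr rfl fun a _ => key 1 (Or.inl rfl) a] at h1
  rw [Finset.sum_congr rfl fun a _ => key (-1) (Or.inr rfl) a] at h2
  rw [Fin.sum_univ_add, ← Finset.sum_add_distrib]
  have e : ∀ a, ((∫ z, pc ξ φ z * Pool.Agent.W2helper17.RT.ri u (Fin.castAdd N a) z) ^ 2 +
      (∫ z, ps ξ φ z * Pool.Agent.W2helper17.RT.ri u (Fin.castAdd N a) z) ^ 2) +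
      ((∫ z, pc ξ φ z * Pool.Agent.W2helper17.RT.ri u (Fin.natAdd N a) z) ^ 2 +
      (∫ z, ps ξ φ z * Pool.Agent.W2helper17.RT.ri u (Fin.natAdd N a) z) ^ 2) =
      2⁻¹ * (((Ca a - 1 * Sb a) ^ 2 + (1 * Sa a + Cb a) ^ 2) +
        ((Ca a - (-1) * Sb a) ^ 2 + ((-1) * Sa a + Cb a) ^ 2)) := by
    intro a
    rw [Pool.Agent.W2helper17.RT.ri_left, Pool.Agent.W2helper17.RT.ri_right, hCa, hSa, hCb, hSb]
    ring
  rw [Finset.sum_congr rfl fun a _ => e a, ← Finset.mul_sum, Finset.sum_add_distrib]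
  linarith

/-- the weighted Minkowski inequality -/
theorem sq_add_le {t a b : ℝ} (ht : 0 < t) : (a + b) ^ 2 ≤ (1 + t) * a ^ 2 + (1 + 1 / t) * b ^ 2 := by
  have h : 0 ≤ (t * a - b) ^ 2 / t := by positivity
  have e : (t * a - b) ^ 2 / t = t * a ^ 2 - 2 * a * b + b ^ 2 / t := by
    field_simp
    ring
  rw [e] at h
  have e2 : (1 + 1 / t) * b ^ 2 = b ^ 2 + b ^ 2 / t := by ring
  rw [e2]
  nlinarith

/-- perturbation of the condition -/
theorem occ_pert {m n M : ℕ} {A R t δ : ℝ} (ht : 0 < t) (f F : Fin M → (Fin (m + n) → ℝ) → ℝ)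
    (hf : ∀ a, MemLp (f a) 2 volume) (hF : ∀ a, MemLp (F a) 2 volume)
    (hfR : ∀ a z, R < ‖z‖ → f a z = 0) (hFR : ∀ a z, R < ‖z‖ → F a z = 0) (h : OccR A f)
    (hδ : ∑ a, ∫ z, (F a z - f a z) ^ 2 ≤ δ) :
    OccR ((1 + t) * A + (1 + 1 / t) * (vb n R * δ)) F := by
  intro ξ φ hφ hφs
  have hD : ∀ a, MemLp (fun z => F a z - f a z) 2 volume := fun a => (hF a).sub (hf a)
  have hDR : ∀ a z, R < ‖z‖ → F a z - f a z = 0 := fun a z hz => by
    rw [hfR a z hz, hFR a z hz, sub_zero]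
  have hφ2 : 0 ≤ ∫ x, φ x ^ 2 := integral_nonneg fun x => sq_nonneg _
  have split : ∀ (ψ : (Fin (m + n) → ℝ) → ℝ), Continuous ψ → ∀ a,
      ∫ z, ψ z * F a z = (∫ z, ψ z * f a z) + ∫ z, ψ z * (F a z - f a z) := by
    intro ψ hψ a
    rw [← integral_add (int_mul hψ (hf a) (hfR a)) (int_mul hψ (hD a) (hDR a))]
    refine integral_congr_ae (ae_of_all _ fun z => ?_)
    simp only
    ring
  have hcs : ∀ (ψ : (Fin (m + n) → ℝ) → ℝ), Continuous ψ → ∀ a,
      (∫ z, ψ z * (F a z - f a z)) ^ 2 ≤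
        (∫ z, cu R ψ z ^ 2) * ∫ z, (F a z - f a z) ^ 2 := by
    intro ψ hψ a
    have e : ∫ z, ψ z * (F a z - f a z) = ∫ z, cu R ψ z * (F a z - f a z) :=
      integral_congr_ae (ae_of_all _ fun z => cu_mul ψ (hDR a) z)
    rw [e]
    exact cs_int (cu_memLp R hψ) (hD a)
  have hterm : ∀ a, (∫ z, pc ξ φ z * F a z) ^ 2 + (∫ z, ps ξ φ z * F a z) ^ 2 ≤
      (1 + t) * ((∫ z, pc ξ φ z * f a z) ^ 2 + (∫ z, ps ξ φ z * f a z) ^ 2) +
      (1 + 1 / t) * ((vb n R * ∫ x, φ x ^ 2) * ∫ z, (F a z - f a z) ^ 2) := by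
    intro a
    rw [split _ (cont_pc ξ hφ), split _ (cont_ps ξ hφ)]
    have a1 := sq_add_le (a := ∫ z, pc ξ φ z * f a z) (b := ∫ z, pc ξ φ z * (F a z - f a z)) ht
    have a2 := sq_add_le (a := ∫ z, ps ξ φ z * f a z) (b := ∫ z, ps ξ φ z * (F a z - f a z)) ht
    have a3 := hcs _ (cont_pc ξ hφ) a
    have a4 := hcs _ (cont_ps ξ hφ) a
    have a5 := test_norm (m := m) R ξ hφ hφs
    have hd0 : 0 ≤ ∫ z, (F a z - f a z) ^ 2 := integral_nonneg fun z => sq_nonneg _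
    have a6 := mul_le_mul_of_nonneg_right a5 hd0
    have a7 : (∫ z, pc ξ φ z * (F a z - f a z)) ^ 2 + (∫ z, ps ξ φ z * (F a z - f a z)) ^ 2 ≤
        (vb n R * ∫ x, φ x ^ 2) * ∫ z, (F a z - f a z) ^ 2 := by
      calc _ ≤ (∫ z, cu R (pc ξ φ) z ^ 2) * (∫ z, (F a z - f a z) ^ 2) +
            (∫ z, cu R (ps ξ φ) z ^ 2) * (∫ z, (F a z - f a z) ^ 2) := add_le_add a3 a4
        _ = ((∫ z, cu R (pc ξ φ) z ^ 2) + ∫ z, cu R (ps ξ φ) z ^ 2) *
            ∫ z, (F a z - f a z) ^ 2 := by ring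
        _ ≤ _ := a6
    have a8 := mul_le_mul_of_nonneg_left a7 (by positivity : (0 : ℝ) ≤ 1 + 1 / t)
    nlinarith
  refine (Finset.sum_le_sum fun a _ => hterm a).trans ?_
  rw [Finset.sum_add_distrib, ← Finset.mul_sum, ← Finset.mul_sum, ← Finset.mul_sum]
  have b1 := mul_le_mul_of_nonneg_left (h ξ φ hφ hφs) (by positivity : (0 : ℝ) ≤ 1 + t)
  have b2 := mul_le_mul_of_nonneg_left hδ (mul_nonneg (vb_nonneg n R) hφ2)
  have b3 := mul_le_mul_of_nonneg_left b2 (by positivity : (0 : ℝ) ≤ 1 + 1 / t)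
  calc _ ≤ (1 + t) * (A * ∫ x, φ x ^ 2) + (1 + 1 / t) * (vb n R * (∫ x, φ x ^ 2) * δ) :=
        add_le_add b1 b3
    _ = _ := by ring

end Pool.Agent.W2helper90.SM
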