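import Pool.Agent.W2helper90.SM.APP

/-!
# Project SM, piece APP, second part
-/

set_option autoImplicit false

open MeasureTheory Set Filter Topology

namespace Pool.Agent.W2helper90.SM

open LTd (pd WGrad WGradC)

theorem OccR.mono {m n M : ℕ} {A A' : ℝ} (h : A ≤ A') {f : Fin M → (Fin (m + n) → ℝ) → ℝ}
    (hf : OccR A f) : OccR A' f := fun ξ φ hφ hφs =>
  (hf ξ φ hφ hφs).trans (mul_le_mul_of_nonneg_right h (integral_nonneg fun x => sq_nonneg _))

/-- the inequality for real families in `H¹` with bounded support -/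
theorem appr (hS : S_SMO) {m n : ℕ} (hm : 1 ≤ m) (hn : 1 ≤ n) {A R : ℝ} (hA : 0 < A) (hR : 0 < R)
    {M : ℕ} (f : Fin M → (Fin (m + n) → ℝ) → ℝ) (G : Fin M → Fin (m + n) → (Fin (m + n) → ℝ) → ℝ)
    (hG : ∀ a, WGrad (f a) (G a)) (hfR : ∀ a z, R < ‖z‖ → f a z = 0) (hocc : OccR A f) :
    ENNReal.ofReal (LTd.Kcl (m + n)) *
      lhs (1 + 2 / ((m + n : ℕ) : ℝ)) (fun z => ENNReal.ofReal (∑ a, f a z ^ 2)) ≤
    ENNReal.ofReal (A ^ (2 / ((m + n : ℕ) : ℝ))) *
      ENNReal.ofReal (∑ a, ∑ i, ∫ z, G a i z ^ 2) := by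
  have hp0 : 0 < 1 + 2 / ((m + n : ℕ) : ℝ) := by positivity
  obtain ⟨F, hF1, hF2, -, hF4, hF5, hF6⟩ := Pool.Agent.W2helper12.LT.approx2 (m + n) M f G hG
  obtain ⟨χ⟩ : Nonempty {χ : ContDiffBump (0 : Fin (m + n) → ℝ) // χ.rIn = R + 1 ∧ χ.rOut = R + 2} :=
    ⟨⟨⟨R + 1, R + 2, by linarith, by linarith⟩, rfl, rfl⟩⟩
  obtain ⟨χ, hχ1, hχ2⟩ := χ
  have χs : ContDiff ℝ 1 χ := χ.contDiff (n := 1)
  have χ0 : ∀ z, 0 ≤ χ z := fun z => χ.nonneg
  have χ1 : ∀ z, χ z ≤ 1 := fun z => χ.le_one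
  have χin : ∀ z, ‖z‖ ≤ R + 1 → χ z = 1 := fun z hz =>
    χ.one_of_mem_closedBall (by rw [hχ1, mem_closedBall_zero_iff]; exact hz)
  have χout : ∀ z, R + 2 < ‖z‖ → χ z = 0 := fun z hz => by
    have : z ∉ Function.support χ := by
      rw [χ.support_eq, hχ2, mem_ball_zero_iff, not_lt]
      exact hz.le
    exact Function.notMem_support.1 this
  have χf : ∀ a z, χ z * f a z = f a z := by
    intro a z
    rcases le_or_gt ‖z‖ R with h | h
    · rw [χin z (by linarith), one_mul]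
    · rw [hfR a z h, mul_zero]
  have χd : ∀ (a : Fin M) (i : Fin (m + n)) z, f a z * pd i χ z = 0 := by
    intro a i z
    rcases le_or_gt ‖z‖ R with h | h
    · have h1 : χ =ᶠ[𝓝 z] fun _ => (1 : ℝ) := by
        have : Metric.ball (0 : Fin (m + n) → ℝ) (R + 1) ∈ 𝓝 z :=
          Metric.isOpen_ball.mem_nhds (by rw [mem_ball_zero_iff]; linarith)
        filter_upwards [this] with z' hz'
        rw [mem_ball_zero_iff] at hz'
        exact χin z' hz'.le
      unfold pd
      rw [h1.fderiv_eq]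
      simp
    · rw [hfR a z h, zero_mul]
  have cpχ : ∀ i, Continuous (pd i χ) := fun i =>
    (χs.continuous_fderiv (by simp)).clm_apply continuous_const
  have spχ : ∀ i, HasCompactSupport (pd i χ) := fun i =>
    (χ.hasCompactSupport.fderiv (𝕜 := ℝ)).comp_left
      (g := fun L : (Fin (m + n) → ℝ) →L[ℝ] ℝ => L (Pi.single i 1)) rfl
  have hC : ∀ i, ∃ C : ℝ, 0 ≤ C ∧ ∀ z, pd i χ z ^ 2 ≤ C := by
    intro i
    obtain ⟨C, hC⟩ := (spχ i).exists_bound_of_continuous (cpχ i)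
    refine ⟨C ^ 2, sq_nonneg _, fun z => ?_⟩
    have h1 := hC z
    rw [Real.norm_eq_abs] at h1
    rw [← sq_abs]
    exact pow_le_pow_left₀ (abs_nonneg _) h1 2
  choose C hC0 hCb using hC
  obtain ⟨w, hw⟩ : ∃ w : ℕ → Fin M → (Fin (m + n) → ℝ) → ℝ, w = fun j a z => χ z * F j a z :=
    ⟨_, rfl⟩
  have hwe : ∀ j a z, w j a z = χ z * F j a z := fun j a z => by rw [hw]
  have hw1 : ∀ j a, ContDiff ℝ 1 (w j a) := fun j a => by rw [hw]; exact χs.mul (hF1 j a)
  have hw2 : ∀ j a, HasCompactSupport (w j a) := fun j a => by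
    rw [hw]; exact (hF2 j a).mul_left
  have hwR : ∀ j a z, R + 2 < ‖z‖ → w j a z = 0 := fun j a z hz => by
    rw [hwe, χout z hz, zero_mul]
  have hFm : ∀ j a, MemLp (F j a) 2 volume := fun j a =>
    (hF1 j a).continuous.memLp_of_hasCompactSupport (hF2 j a)
  have hwm : ∀ j a, MemLp (w j a) 2 volume := fun j a =>
    (hw1 j a).continuous.memLp_of_hasCompactSupport (hw2 j a)
  have hfm : ∀ a, MemLp (f a) 2 volume := fun a => (hG a).f2
  have hpF : ∀ j i a, Continuous (pd i (F j a)) ∧ HasCompactSupport (pd i (F j a)) :=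
    fun j i a => ⟨((hF1 j a).continuous_fderiv (by simp)).clm_apply continuous_const,
      ((hF2 j a).fderiv (𝕜 := ℝ)).comp_left
        (g := fun L : (Fin (m + n) → ℝ) →L[ℝ] ℝ => L (Pi.single i 1)) rfl⟩
  have hpw : ∀ j i a, Continuous (pd i (w j a)) ∧ HasCompactSupport (pd i (w j a)) :=
    fun j i a => ⟨((hw1 j a).continuous_fderiv (by simp)).clm_apply continuous_const,
      ((hw2 j a).fderiv (𝕜 := ℝ)).comp_left
        (g := fun L : (Fin (m + n) → ℝ) →L[ℝ] ℝ => L (Pi.single i 1)) rfl⟩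
  have hpFm : ∀ j i a, MemLp (pd i (F j a)) 2 volume := fun j i a =>
    (hpF j i a).1.memLp_of_hasCompactSupport (hpF j i a).2
  have hpwm : ∀ j i a, MemLp (pd i (w j a)) 2 volume := fun j i a =>
    (hpw j i a).1.memLp_of_hasCompactSupport (hpw j i a).2
  have hχG : ∀ a i, MemLp (fun z => χ z * G a i z) 2 volume := by
    intro a i
    refine MemLp.of_le ((hG a).g2 i)
      (χs.continuous.aestronglyMeasurable.mul ((hG a).g2 i).aestronglyMeasurable)
      (ae_of_all _ fun z => ?_)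
    rw [norm_mul, Real.norm_eq_abs, abs_of_nonneg (χ0 z)]
    exact mul_le_of_le_one_left (norm_nonneg _) (χ1 z)
  -- convergence in `L²`
  have hδ : ∀ a, Tendsto (fun j => ∫ z, (w j a z - f a z) ^ 2) atTop (𝓝 0) := by
    intro a
    refine squeeze_zero (fun j => integral_nonneg fun z => sq_nonneg _) (fun j => ?_) (hF5 a)
    refine integral_mono ((hwm j a).sub (hfm a)).integrable_sq
      ((hFm j a).sub (hfm a)).integrable_sq fun z => ?_
    show (w j a z - f a z) ^ 2 ≤ (F j a z - f a z) ^ 2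
    have e : w j a z - f a z = χ z * (F j a z - f a z) := by
      rw [hwe, mul_sub, χf]
    rw [e, mul_pow]
    have h1 : χ z ^ 2 ≤ 1 := pow_le_one₀ (χ0 z) (χ1 z)
    exact mul_le_of_le_one_left (sq_nonneg _) h1
  have hpd : ∀ a i, Tendsto (fun j => ∫ z, (pd i (w j a) z - χ z * G a i z) ^ 2) atTop (𝓝 0) := by
    intro a i
    have h1 : Tendsto (fun j => 2 * (∫ z, (pd i (F j a) z - G a i z) ^ 2) +
        2 * C i * ∫ z, (F j a z - f a z) ^ 2) atTop (𝓝 (2 * 0 + 2 * C i * 0)) :=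
      ((hF6 i a).const_mul 2).add ((hF5 a).const_mul (2 * C i))
    rw [mul_zero, mul_zero, add_zero] at h1
    refine squeeze_zero (fun j => integral_nonneg fun z => sq_nonneg _) (fun j => ?_) h1
    have i1 : Integrable fun z => 2 * (pd i (F j a) z - G a i z) ^ 2 :=
      ((hpFm j i a).sub ((hG a).g2 i)).integrable_sq.const_mul 2
    have i2 : Integrable fun z => 2 * C i * (F j a z - f a z) ^ 2 :=
      ((hFm j a).sub (hfm a)).integrable_sq.const_mul (2 * C i)
    rw [← integral_const_mul, ← integral_const_mul, ← integral_add i1 i2]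
    refine integral_mono ((hpwm j i a).sub (hχG a i)).integrable_sq (i1.add i2) fun z => ?_
    show (pd i (w j a) z - χ z * G a i z) ^ 2 ≤
      2 * (pd i (F j a) z - G a i z) ^ 2 + 2 * C i * (F j a z - f a z) ^ 2
    have e0 : pd i (w j a) z = χ z * pd i (F j a) z + F j a z * pd i χ z := by
      have h2 : HasFDerivAt (w j a) (χ z • fderiv ℝ (F j a) z + F j a z • fderiv ℝ χ z) z := by
        rw [hw]
        exact ((χs.differentiable (by simp)) z).hasFDerivAt.mul
          (((hF1 j a).differentiable (by simp)) z).hasFDerivAt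
      unfold pd
      rw [h2.fderiv]
      simp
    have e1 : pd i (w j a) z - χ z * G a i z =
        χ z * (pd i (F j a) z - G a i z) + (F j a z - f a z) * pd i χ z := by
      have := χd a i z
      rw [e0, sub_mul, this]
      ring
    rw [e1]
    have h3 : (χ z * (pd i (F j a) z - G a i z)) ^ 2 ≤ (pd i (F j a) z - G a i z) ^ 2 := by
      rw [mul_pow]
      exact mul_le_of_le_one_left (sq_nonneg _) (pow_le_one₀ (χ0 z) (χ1 z))
    have h4 : ((F j a z - f a z) * pd i χ z) ^ 2 ≤ C i * (F j a z - f a z) ^ 2 := by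
      rw [mul_pow, mul_comm (C i)]
      exact mul_le_mul_of_nonneg_left (hCb i z) (sq_nonneg _)
    nlinarith [sq_nonneg (χ z * (pd i (F j a) z - G a i z) - (F j a z - f a z) * pd i χ z)]
  have hE : Tendsto (fun j => ∑ a, ∑ i, ∫ z, pd i (w j a) z ^ 2) atTop
      (𝓝 (∑ a, ∑ i, ∫ z, (χ z * G a i z) ^ 2)) :=
    tendsto_finsetSum _ fun a _ => tendsto_finsetSum _ fun i _ =>
      Pool.Agent.W2helper1.LT.tendsto_sq_int (fun j => hpwm j i a) (hχG a i) (hpd a i)
  have hEle : ∑ a, ∑ i, ∫ z, (χ z * G a i z) ^ 2 ≤ ∑ a, ∑ i, ∫ z, G a i z ^ 2 := by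
    refine Finset.sum_le_sum fun a _ => Finset.sum_le_sum fun i _ => ?_
    refine integral_mono (hχG a i).integrable_sq ((hG a).g2 i).integrable_sq fun z => ?_
    show (χ z * G a i z) ^ 2 ≤ G a i z ^ 2
    rw [mul_pow]
    exact mul_le_of_le_one_left (sq_nonneg _) (pow_le_one₀ (χ0 z) (χ1 z))
  have hδs : Tendsto (fun j => ∑ a, ∫ z, (w j a z - f a z) ^ 2) atTop (𝓝 0) := by
    have := tendsto_finsetSum Finset.univ fun a (_ : a ∈ Finset.univ) => hδ a
    simpa using this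
  -- the inequality with `t`
  have key : ∀ t : ℝ, 0 < t → ENNReal.ofReal (LTd.Kcl (m + n)) *
      lhs (1 + 2 / ((m + n : ℕ) : ℝ)) (fun z => ENNReal.ofReal (∑ a, f a z ^ 2)) ≤
      ENNReal.ofReal (((1 + 2 * t) * A) ^ (2 / ((m + n : ℕ) : ℝ))) *
        ENNReal.ofReal (∑ a, ∑ i, ∫ z, G a i z ^ 2) := by
    intro t ht
    have hAt : 0 < (1 + 2 * t) * A := by positivity
    have hev : ∀ᶠ j in atTop, (1 + 1 / t) * (vb n (R + 2) *
        ∑ a, ∫ z, (w j a z - f a z) ^ 2) ≤ t * A := by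
      have h1 : Tendsto (fun j => (1 + 1 / t) * (vb n (R + 2) *
          ∑ a, ∫ z, (w j a z - f a z) ^ 2)) atTop (𝓝 ((1 + 1 / t) * (vb n (R + 2) * 0))) :=
        (hδs.const_mul _).const_mul _
      rw [mul_zero, mul_zero] at h1
      exact (h1.eventually (gt_mem_nhds (by positivity : (0 : ℝ) < t * A))).mono fun j hj => hj.le
    refine lhs_fatou hp0 (fun j z => ENNReal.ofReal (∑ a, w j a z ^ 2)) _
      (fun j => ?_) ?_ _ ENNReal.ofReal_ne_top
      (fun j => ENNReal.ofReal (((1 + 2 * t) * A) ^ (2 / ((m + n : ℕ) : ℝ))) *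
        ENNReal.ofReal (∑ a, ∑ i, ∫ z, pd i (w j a) z ^ 2)) _ ?_ ?_ |>.trans
      (mul_le_mul_right (ENNReal.ofReal_le_ofReal hEle) _)
    · exact (continuous_finsetSum _ fun a _ =>
        (hw1 j a).continuous.pow 2).measurable.ennreal_ofReal
    · filter_upwards [hF4] with z hz
      refine (ENNReal.continuous_ofReal.tendsto _).comp ?_
      refine tendsto_finsetSum _ fun a _ => Tendsto.pow ?_ 2
      have h1 := (hz a).const_mul (χ z)
      rw [χf] at h1
      simp only [hwe]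
      exact h1
    · filter_upwards [hev] with j hj
      refine flat hS hm hn hAt (w j) (hw1 j) (hw2 j) ?_
      have h1 := occ_pert (R := R + 2) ht f (w j) hfm (hwm j)
        (fun a z hz => hfR a z (by linarith)) (hwR j) hocc le_rfl
      refine h1.mono ?_
      linarith
    · exact ENNReal.Tendsto.const_mul ((ENNReal.continuous_ofReal.tendsto _).comp hE)
        (Or.inr ENNReal.ofReal_ne_top)
  -- `t → 0`
  have hlim : Tendsto (fun t : ℝ => ENNReal.ofReal (((1 + 2 * t) * A) ^ (2 / ((m + n : ℕ) : ℝ))) *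
        ENNReal.ofReal (∑ a, ∑ i, ∫ z, G a i z ^ 2)) (𝓝[>] 0)
      (𝓝 (ENNReal.ofReal (((1 + 2 * 0) * A) ^ (2 / ((m + n : ℕ) : ℝ))) *
        ENNReal.ofReal (∑ a, ∑ i, ∫ z, G a i z ^ 2))) := by
    refine ENNReal.Tendsto.mul_const ?_ (Or.inr ENNReal.ofReal_ne_top)
    refine (ENNReal.continuous_ofReal.tendsto _).comp ?_
    have h1 : ContinuousAt (fun t : ℝ => ((1 + 2 * t) * A) ^ (2 / ((m + n : ℕ) : ℝ))) 0 := by
      refine ContinuousAt.rpow_const (by fun_prop) (Or.inl ?_)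
      simp [hA.ne']
    exact h1.tendsto.mono_left nhdsWithin_le_nhds
  have hfin := ge_of_tendsto hlim (eventually_nhdsWithin_of_forall fun t ht => key t ht)
  rw [mul_zero, add_zero, one_mul] at hfin
  exact hfin

theorem t_APP (hS : S_SMO) : S_APP := by
  intro m n hm hn A R hA hR N u g hg huR hocc
  have hwg := Pool.Agent.W2helper17.RT.wgrad_ri hg
  have hvan : ∀ a z, R < ‖z‖ → Pool.Agent.W2helper17.RT.ri u a z = 0 := by
    intro a
    refine Fin.addCases (fun n => ?_) (fun n => ?_) a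
    · intro z hz
      rw [Pool.Agent.W2helper17.RT.ri_left]
      show (u n z).re = 0
      rw [huR n z hz]
      rfl
    · intro z hz
      rw [Pool.Agent.W2helper17.RT.ri_right]
      show (u n z).im = 0
      rw [huR n z hz]
      rfl
  have h1 := appr hS hm hn hA hR (Pool.Agent.W2helper17.RT.ri u) (Pool.Agent.W2helper17.RT.rg g)
    hwg hvan (occ_ri u (fun a => (hg a).f2) huR hocc)
  have hsq : ∀ z : ℂ, ‖z‖ ^ 2 = z.re ^ 2 + z.im ^ 2 := by
    intro z
    rw [← Complex.normSq_eq_norm_sq, Complex.normSq_apply]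
    ring
  have e1 : ∀ z, ∑ a, Pool.Agent.W2helper17.RT.ri u a z ^ 2 = ∑ a, ‖u a z‖ ^ 2 := by
    intro z
    rw [Fin.sum_univ_add, ← Finset.sum_add_distrib]
    refine Finset.sum_congr rfl fun a _ => ?_
    rw [Pool.Agent.W2helper17.RT.ri_left, Pool.Agent.W2helper17.RT.ri_right, hsq]
  have e2 : ∑ a, ∑ i, ∫ z, Pool.Agent.W2helper17.RT.rg g a i z ^ 2 =
      ∑ a, ∑ i, ∫ z, ‖g a i z‖ ^ 2 := by
    rw [Fin.sum_univ_add, ← Finset.sum_add_distrib]
    refine Finset.sum_congr rfl fun a _ => ?_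
    rw [← Finset.sum_add_distrib]
    refine Finset.sum_congr rfl fun i _ => ?_
    rw [Pool.Agent.W2helper17.RT.rg_left, Pool.Agent.W2helper17.RT.rg_right]
    simp only [hsq]
    exact (integral_add ((hg a).g2 i).re.integrable_sq ((hg a).g2 i).im.integrable_sq).symm
  simp only [e1, e2] at h1
  exact h1

end Pool.Agent.W2helper90.SM
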