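import Pool.Agent.W2helper90.SM.Stm

/-!
# Project SM, piece FUB: the identification of `ℝ^m × ℝ^n` with `ℝ^(m+n)`
-/

set_option autoImplicit false

open MeasureTheory Set Filter Topology

namespace Pool.Agent.W2helper90.SM

noncomputable section

open LTd (pd)

/-- the linear identification -/
def QL (m n : ℕ) : P m n ≃ₗ[ℝ] (Fin (m + n) → ℝ) where
  toFun z := Fin.append z.1 z.2
  invFun z := (fx z, fy z)
  map_add' z z' := by
    funext i
    refine Fin.addCases (fun i => ?_) (fun j => ?_) i <;> simp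
  map_smul' c z := by
    funext i
    refine Fin.addCases (fun i => ?_) (fun j => ?_) i <;> simp
  left_inv z := by
    refine Prod.ext ?_ ?_
    · funext i; simp [fx]
    · funext j; simp [fy]
  right_inv x := by
    funext i
    refine Fin.addCases (fun i => ?_) (fun j => ?_) i <;> simp [fx, fy]

/-- the continuous linear equivalence -/
def Q (m n : ℕ) : P m n ≃L[ℝ] (Fin (m + n) → ℝ) := (QL m n).toContinuousLinearEquiv

theorem Q_apply {m n : ℕ} (x : Fin m → ℝ) (y : Fin n → ℝ) : Q m n (x, y) = Fin.append x y := rfl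

theorem Q_symm {m n : ℕ} (z : Fin (m + n) → ℝ) : (Q m n).symm z = (fx z, fy z) := rfl

theorem Q_mp (m n : ℕ) : MeasurePreserving (Q m n) volume volume := by
  have h1 := volume_measurePreserving_piCongrLeft (fun _ : Fin (m + n) => ℝ)
    (finSumFinEquiv (m := m) (n := n))
  have h2 := volume_measurePreserving_sumPiEquivProdPi_symm (fun _ : Fin m ⊕ Fin n => ℝ)
  have h4 := h1.comp h2
  have h5 : (fun z : P m n => Q m n z) =
      ⇑(MeasurableEquiv.piCongrLeft (fun _ : Fin (m + n) => ℝ) (finSumFinEquiv (m := m) (n := n))) ∘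
      ⇑(MeasurableEquiv.sumPiEquivProdPi fun _ : Fin m ⊕ Fin n => ℝ).symm := by
    funext z i
    refine Fin.addCases (fun i => ?_) (fun j => ?_) i
    · have e : Q m n z (Fin.castAdd n i) = z.1 i := Fin.append_left _ _ _
      rw [e]
      simp only [Function.comp_apply]
      rw [show Fin.castAdd n i = finSumFinEquiv (Sum.inl i) by simp, MeasurableEquiv.coe_piCongrLeft,
        Equiv.piCongrLeft_apply_apply]
      rfl
    · have e : Q m n z (Fin.natAdd m j) = z.2 j := Fin.append_right _ _ _
      rw [e]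
      simp only [Function.comp_apply]
      rw [show Fin.natAdd m j = finSumFinEquiv (Sum.inr j) by simp, MeasurableEquiv.coe_piCongrLeft,
        Equiv.piCongrLeft_apply_apply]
      rfl
  change MeasurePreserving (fun z : P m n => Q m n z) volume volume
  rw [h5]
  exact h4

theorem Q_me (m n : ℕ) : MeasurableEmbedding (Q m n) := (Q m n).toHomeomorph.measurableEmbedding

theorem Q_symm_mp (m n : ℕ) : MeasurePreserving (Q m n).symm volume volume := by
  have h := (Q_mp m n)
  have h2 : MeasurePreserving ((Q m n).toHomeomorph.toMeasurableEquiv) volume volume := h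
  exact MeasurePreserving.symm _ h2

theorem t_FUB : S_FUB := by
  intro m n
  refine ⟨Q m n, fun x y => rfl, fun z => rfl, Q_mp m n, Q_symm_mp m n, fun i => ?_, fun j => ?_⟩
  · funext l
    refine Fin.addCases (fun i' => ?_) (fun j' => ?_) l
    · rw [Q_apply, Fin.append_left]
      simp [Pi.single_apply]
    · rw [Q_apply, Fin.append_right]
      simp [Pi.single_apply, Fin.ext_iff]
      omega
  · funext l
    refine Fin.addCases (fun i' => ?_) (fun j' => ?_) l
    · rw [Q_apply, Fin.append_left]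
      simp [Pi.single_apply, Fin.ext_iff]
      omega
    · rw [Q_apply, Fin.append_right]
      simp [Pi.single_apply]

theorem Q_int {m n : ℕ} (f : (Fin (m + n) → ℝ) → ℝ) : ∫ z, f (Q m n z) = ∫ x, f x :=
  (Q_mp m n).integral_comp (Q_me m n) f

theorem Q_intC {m n : ℕ} (f : (Fin (m + n) → ℝ) → ℂ) : ∫ z, f (Q m n z) = ∫ x, f x :=
  (Q_mp m n).integral_comp (Q_me m n) f

theorem Q_lint {m n : ℕ} (f : (Fin (m + n) → ℝ) → ENNReal) : ∫⁻ z, f (Q m n z) = ∫⁻ x, f x :=
  (Q_mp m n).lintegral_comp_emb (Q_me m n) f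

/-- Tonelli's theorem -/
theorem Q_tonelli {m n : ℕ} {f : (Fin (m + n) → ℝ) → ENNReal} (hf : AEMeasurable f volume) :
    ∫⁻ z, f z = ∫⁻ x : Fin m → ℝ, ∫⁻ y : Fin n → ℝ, f (Fin.append x y) := by
  rw [← Q_lint]
  have h1 : AEMeasurable (fun z : P m n => f (Q m n z)) volume :=
    hf.comp_quasiMeasurePreserving (Q_mp m n).quasiMeasurePreserving
  have h2 := lintegral_prod (μ := (volume : Measure (Fin m → ℝ)))
    (ν := (volume : Measure (Fin n → ℝ))) (fun z : P m n => f (Q m n z)) h1
  exact h2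

/-- Fubini's theorem -/
theorem Q_fubini {m n : ℕ} {f : (Fin (m + n) → ℝ) → ℝ} (hf : Integrable f volume) :
    ∫ z, f z = ∫ x : Fin m → ℝ, ∫ y : Fin n → ℝ, f (Fin.append x y) := by
  rw [← Q_int]
  have h1 : Integrable (fun z : P m n => f (Q m n z)) volume :=
    (Q_mp m n).integrable_comp_of_integrable hf
  exact integral_prod (fun z : P m n => f (Q m n z)) h1

/-- partial derivatives in the product coordinates -/
theorem gx_Q {m n : ℕ} {w : (Fin (m + n) → ℝ) → ℝ} (hw : ContDiff ℝ 1 w) (i : Fin m) (z : P m n) :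
    gx (fun z => w (Q m n z)) i z = pd (Fin.castAdd n i) w (Q m n z) := by
  have h1 : HasFDerivAt (fun z => w (Q m n z))
      ((fderiv ℝ w (Q m n z)).comp ((Q m n : P m n ≃L[ℝ] _) : P m n →L[ℝ] (Fin (m + n) → ℝ))) z :=
    ((hw.differentiable (by norm_num)) (Q m n z)).hasFDerivAt.comp z (Q m n).hasFDerivAt
  unfold gx pd
  rw [h1.fderiv]
  show fderiv ℝ w (Q m n z) (Q m n (Pi.single i 1, 0)) = _
  have e : Q m n (Pi.single i 1, 0) = Pi.single (Fin.castAdd n i) 1 := by
    funext l
    refine Fin.addCases (fun i' => ?_) (fun j' => ?_) l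
    · rw [Q_apply, Fin.append_left]
      simp [Pi.single_apply]
    · rw [Q_apply, Fin.append_right]
      simp [Pi.single_apply, Fin.ext_iff]
      omega
  rw [e]

theorem gy_Q {m n : ℕ} {w : (Fin (m + n) → ℝ) → ℝ} (hw : ContDiff ℝ 1 w) (j : Fin n) (z : P m n) :
    gy (fun z => w (Q m n z)) j z = pd (Fin.natAdd m j) w (Q m n z) := by
  have h1 : HasFDerivAt (fun z => w (Q m n z))
      ((fderiv ℝ w (Q m n z)).comp ((Q m n : P m n ≃L[ℝ] _) : P m n →L[ℝ] (Fin (m + n) → ℝ))) z :=
    ((hw.differentiable (by norm_num)) (Q m n z)).hasFDerivAt.comp z (Q m n).hasFDerivAt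
  unfold gy pd
  rw [h1.fderiv]
  show fderiv ℝ w (Q m n z) (Q m n (0, Pi.single j 1)) = _
  have e : Q m n (0, Pi.single j 1) = Pi.single (Fin.natAdd m j) 1 := by
    funext l
    refine Fin.addCases (fun i' => ?_) (fun j' => ?_) l
    · rw [Q_apply, Fin.append_left]
      simp [Pi.single_apply, Fin.ext_iff]
      omega
    · rw [Q_apply, Fin.append_right]
      simp [Pi.single_apply]
  rw [e]

end

end Pool.Agent.W2helper90.SM
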