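import Pool.Agent.W2helper90.SM.FUB

/-!
# Project SM: Fatou's lemma for the left hand side, integrals of smooth functions, Cauchy-Schwarz
-/

set_option autoImplicit false

open MeasureTheory Set Filter Topology

namespace Pool.Agent.W2helper90.SM

open LTd (pd)

theorem measurable_append_right {m n : ℕ} (x : Fin m → ℝ) :
    Measurable fun y : Fin n → ℝ => (Fin.append x y : Fin (m + n) → ℝ) := by
  have h : Measurable fun y : Fin n → ℝ => Q m n (x, y) :=
    (Q m n).continuous.measurable.comp (measurable_const.prodMk measurable_id)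
  exact h

/-- the left hand side of the inequality -/
noncomputable def lhs {m n : ℕ} (p : ℝ) (F : (Fin (m + n) → ℝ) → ENNReal) : ENNReal :=
  ∫⁻ x : Fin m → ℝ, (∫⁻ y : Fin n → ℝ, F (Fin.append x y)) ^ p

theorem lhs_fatou {m n : ℕ} {p : ℝ} (hp : 0 < p) (F : ℕ → (Fin (m + n) → ℝ) → ENNReal)
    (H : (Fin (m + n) → ℝ) → ENNReal) (hF : ∀ j, Measurable (F j))
    (hae : ∀ᵐ z, Tendsto (fun j => F j z) atTop (𝓝 (H z))) (c : ENNReal) (hc : c ≠ ⊤)
    (B : ℕ → ENNReal) (b : ENNReal) (hB : ∀ᶠ j in atTop, c * lhs p (F j) ≤ B j)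
    (hb : Tendsto B atTop (𝓝 b)) : c * lhs p H ≤ b := by
  have h1 : ∀ᵐ z : P m n, Tendsto (fun j => F j (Q m n z)) atTop (𝓝 (H (Q m n z))) :=
    (Q_mp m n).quasiMeasurePreserving.tendsto_ae.eventually hae
  have h2 : ∀ᵐ x : Fin m → ℝ, ∀ᵐ y : Fin n → ℝ,
      Tendsto (fun j => F j (Fin.append x y)) atTop (𝓝 (H (Fin.append x y))) :=
    Measure.ae_ae_of_ae_prod h1
  have h3 : ∀ᵐ x : Fin m → ℝ, (∫⁻ y : Fin n → ℝ, H (Fin.append x y)) ^ p ≤
      liminf (fun j => (∫⁻ y : Fin n → ℝ, F j (Fin.append x y)) ^ p) atTop := by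
    filter_upwards [h2] with x hx
    have e1 : ∫⁻ y : Fin n → ℝ, H (Fin.append x y) ≤
        liminf (fun j => ∫⁻ y : Fin n → ℝ, F j (Fin.append x y)) atTop := by
      have e2 : ∫⁻ y : Fin n → ℝ, H (Fin.append x y) =
          ∫⁻ y : Fin n → ℝ, liminf (fun j => F j (Fin.append x y)) atTop := by
        refine lintegral_congr_ae ?_
        filter_upwards [hx] with y hy
        exact hy.liminf_eq.symm
      rw [e2]
      exact lintegral_liminf_le fun j => (hF j).comp (measurable_append_right x)
    refine (ENNReal.monotone_rpow_of_nonneg hp.le e1).trans (le_of_eq ?_)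
    exact (ENNReal.monotone_rpow_of_nonneg hp.le).map_liminf_of_continuousAt _
      ENNReal.continuous_rpow_const.continuousAt
  have h4 : lhs p H ≤ liminf (fun j => lhs p (F j)) atTop := by
    unfold lhs
    refine (lintegral_mono_ae h3).trans (lintegral_liminf_le fun j => ?_)
    have e3 : Measurable fun z : P m n => F j (Q m n z) := (hF j).comp (Q m n).continuous.measurable
    exact (Measurable.lintegral_prod_right' e3).pow_const p
  have h5 : c * liminf (fun j => lhs p (F j)) atTop = liminf (fun j => c * lhs p (F j)) atTop := by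
    have hmono : Monotone fun t : ENNReal => c * t := fun s t hst => mul_le_mul_right hst c
    exact hmono.map_liminf_of_continuousAt _ (ENNReal.continuous_const_mul hc).continuousAt
  calc c * lhs p H ≤ c * liminf (fun j => lhs p (F j)) atTop := mul_le_mul_right h4 c
    _ = liminf (fun j => c * lhs p (F j)) atTop := h5
    _ ≤ liminf B atTop := liminf_le_liminf hB
    _ = b := hb.liminf_eq

/-- Cauchy-Schwarz with a real parameter-free form -/
theorem cs_int {X : Type} [MeasurableSpace X] {μ : Measure X} {f g : X → ℝ} (hf : MemLp f 2 μ)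
    (hg : MemLp g 2 μ) : (∫ x, f x * g x ∂μ) ^ 2 ≤ (∫ x, f x ^ 2 ∂μ) * ∫ x, g x ^ 2 ∂μ := by
  have hfi := hf.integrable_sq
  have hgi := hg.integrable_sq
  have hfg : Integrable (fun x => f x * g x) μ := hf.integrable_mul hg
  set a := ∫ x, f x ^ 2 ∂μ
  set b := ∫ x, f x * g x ∂μ with hb
  set c := ∫ x, g x ^ 2 ∂μ
  have ha : 0 ≤ a := integral_nonneg fun x => sq_nonneg _
  have hc : 0 ≤ c := integral_nonneg fun x => sq_nonneg _
  have key : ∀ t : ℝ, 0 ≤ a * t ^ 2 + 2 * b * t + c := by
    intro t
    have h1 : ∫ x, (t * f x + g x) ^ 2 ∂μ = a * t ^ 2 + 2 * b * t + c := by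
      have e : ∀ x, (t * f x + g x) ^ 2 = t ^ 2 * f x ^ 2 + (2 * t * (f x * g x) + g x ^ 2) := by
        intro x; ring
      have hI : Integrable (fun x => 2 * t * (f x * g x) + g x ^ 2) μ :=
        (hfg.const_mul (2 * t)).add hgi
      simp only [e]
      rw [integral_add (hfi.const_mul _) hI,
        integral_add (hfg.const_mul _) hgi, integral_const_mul, integral_const_mul]
      ring
    rw [← h1]
    exact integral_nonneg fun x => sq_nonneg _
  rcases ha.eq_or_lt with h0 | h0
  · rw [← h0] at key ⊢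
    have h2 : b = 0 := by
      by_contra hb0
      have := key (-(c + 1) / (2 * b))
      have e : 2 * b * (-(c + 1) / (2 * b)) = -(c + 1) := by field_simp
      rw [e] at this
      linarith
    rw [h2]
    simp
  · have := key (-b / a)
    have e : a * (-b / a) ^ 2 + 2 * b * (-b / a) + c = c - b ^ 2 / a := by
      field_simp
      ring
    rw [e] at this
    have h3 : b ^ 2 / a ≤ c := by linarith
    rw [div_le_iff₀ h0] at h3
    linarith

end Pool.Agent.W2helper90.SM
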