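import Pool.Agent.W2helper90.SM.Stm
import Pool.Agent.Helper717.LT.P_T_all

/-!
# Project SM, piece GRAM
-/

set_option autoImplicit false

open MeasureTheory Set Filter Topology

namespace Pool.Agent.W2helper90.SM

open LTd (pd pp bco Tm)

theorem pd_sum {m : ℕ} {κ : Type} [Fintype κ] (f : κ → (Fin m → ℝ) → ℝ)
    (hf : ∀ α, ContDiff ℝ 1 (f α)) (c : κ → ℝ) (j : Fin m) (x : Fin m → ℝ) :
    pd j (fun x => ∑ α, c α * f α x) x = ∑ α, c α * pd j (f α) x := by
  unfold pd
  have h : HasFDerivAt (fun x => ∑ α, c α * f α x) (∑ α, c α • fderiv ℝ (f α) x) x := by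
    refine HasFDerivAt.fun_sum fun α _ => ?_
    exact (((hf α).differentiable (by simp)).differentiableAt.hasFDerivAt).const_mul (c α)
  rw [h.fderiv]
  simp

theorem t_GRAM : S_GRAM := by
  classical
  intro m n hm hn a η Λ B ha hη hB σ ι _ _ ε c hc hs hocc hbath hΛ
  have hn0 : (0 : ℝ) < n := by exact_mod_cast hn
  have hm0 : (0 : ℝ) < m := by exact_mod_cast hm
  obtain ⟨f, hf⟩ : ∃ f : σ × ι → (Fin m → ℝ) → ℝ, f = fun α => c α.1 α.2 := ⟨_, rfl⟩
  have hf1 : ∀ α, ContDiff ℝ 1 (f α) := fun α => by rw [hf]; exact hc _ _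
  have hf2 : ∀ α, HasCompactSupport (f α) := fun α => by rw [hf]; exact hs _ _
  have hfi : ∀ α β, Integrable (fun x => f α x * f β x) := fun α β =>
    ((hf1 α).continuous.mul (hf1 β).continuous).integrable_of_hasCompactSupport
      ((hf2 α).mul_right)
  obtain ⟨M, hMd⟩ : ∃ M : Matrix (σ × ι) (σ × ι) ℝ,
    M = Matrix.of fun α β => ∫ x, f α x * f β x := ⟨_, rfl⟩
  have hMe : ∀ α β, M α β = ∫ x, f α x * f β x := fun α β => by rw [hMd]; rfl
  have hM : M.IsHermitian := by
    ext α β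
    rw [Matrix.conjTranspose_apply, star_trivial, hMe, hMe]
    exact integral_congr_ae (ae_of_all _ fun x => mul_comm _ _)
  obtain ⟨l, hl⟩ : ∃ l : σ × ι → ℝ, l = hM.eigenvalues := ⟨_, rfl⟩
  obtain ⟨u, hu⟩ : ∃ u : σ × ι → σ × ι → ℝ, u = fun β α => hM.eigenvectorBasis β α := ⟨_, rfl⟩
  have huo : ∀ β β', ∑ α, u β α * u β' α = if β = β' then (1 : ℝ) else 0 := by
    intro β β'
    have h1 := orthonormal_iff_ite.1 hM.eigenvectorBasis.orthonormal β β'
    rw [PiLp.inner_apply] at h1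
    rw [← h1]
    refine Finset.sum_congr rfl fun j _ => ?_
    simp [hu, mul_comm]
  have hMu : ∀ β α, ∑ α', M α α' * u β α' = l β * u β α := by
    intro β α
    have h1 := hM.mulVec_eigenvectorBasis β
    rw [hu, hl]
    exact congrFun h1 α
  have hpol : ∀ v v' : σ × ι → ℝ,
      ∑ β, (∑ α, u β α * v α) * (∑ α, u β α * v' α) = ∑ α, v α * v' α := by
    intro v v'
    have h1 := hM.eigenvectorBasis.sum_inner_mul_inner (WithLp.toLp 2 v) (WithLp.toLp 2 v')
    rw [PiLp.inner_apply] at h1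
    have h2 : ∀ β, inner ℝ (WithLp.toLp 2 v) (hM.eigenvectorBasis β) = ∑ α, u β α * v α := by
      intro β
      rw [PiLp.inner_apply]
      refine Finset.sum_congr rfl fun j _ => ?_
      simp [hu]
    have h3 : ∀ β, inner ℝ (hM.eigenvectorBasis β) (WithLp.toLp 2 v') = ∑ α, u β α * v' α := by
      intro β
      rw [PiLp.inner_apply]
      refine Finset.sum_congr rfl fun j _ => ?_
      simp [hu, mul_comm]
    simp only [h2, h3] at h1
    rw [h1]
    refine Finset.sum_congr rfl fun j _ => ?_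
    simp [mul_comm]
  -- the rotated functions
  obtain ⟨w, hw⟩ : ∃ w : σ × ι → (Fin m → ℝ) → ℝ, w = fun β x => ∑ α, u β α * f α x := ⟨_, rfl⟩
  have hwx : ∀ β x, w β x = ∑ α, u β α * f α x := fun β x => by rw [hw]
  have hw1 : ∀ β, ContDiff ℝ 1 (w β) := fun β => by
    rw [hw]
    exact ContDiff.sum fun α _ => contDiff_const.mul (hf1 α)
  have hw2 : ∀ β, HasCompactSupport (w β) := fun β => by
    rw [hw]
    refine HasCompactSupport.intro (isCompact_iUnion fun α => hf2 α) fun x hx => ?_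
    refine Finset.sum_eq_zero fun α _ => ?_
    rw [image_eq_zero_of_notMem_tsupport (fun h => hx (Set.mem_iUnion.2 ⟨α, h⟩)), mul_zero]
  have hwf : ∀ β α, ∫ x, w β x * f α x = l β * u β α := by
    intro β α
    rw [← hMu β α]
    have h1 : ∀ x, w β x * f α x = ∑ α', u β α' * (f α x * f α' x) := by
      intro x
      rw [hwx, Finset.sum_mul]
      exact Finset.sum_congr rfl fun α' _ => by ring
    simp only [h1]
    rw [integral_finsetSum _ fun α' _ => (hfi α α').const_mul _]
    refine Finset.sum_congr rfl fun α' _ => ?_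
    rw [integral_const_mul, hMe, mul_comm]
  have hww : ∀ β β', ∫ x, w β x * w β' x = if β = β' then l β else 0 := by
    intro β β'
    have h1 : ∀ x, w β x * w β' x = ∑ α, u β' α * (w β x * f α x) := by
      intro x
      rw [hwx β' x, Finset.mul_sum]
      exact Finset.sum_congr rfl fun α' _ => by ring
    have hi : ∀ α, Integrable (fun x => w β x * f α x) := fun α =>
      ((hw1 β).continuous.mul (hf1 α).continuous).integrable_of_hasCompactSupport
        ((hw2 β).mul_right)
    simp only [h1]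
    rw [integral_finsetSum _ fun α _ => (hi α).const_mul _]
    have h2 : ∀ α, ∫ x, u β' α * (w β x * f α x) = l β * (u β α * u β' α) := by
      intro α
      rw [integral_const_mul, hwf]
      ring
    rw [Finset.sum_congr rfl fun α _ => h2 α, ← Finset.mul_sum, huo]
    by_cases h : β = β'
    · rw [if_pos h, if_pos h, mul_one]
    · rw [if_neg h, if_neg h, mul_zero]
  have hl0 : ∀ β, 0 ≤ l β := by
    intro β
    have h1 := hww β β
    rw [if_pos rfl] at h1
    rw [← h1]
    exact integral_nonneg fun x => mul_self_nonneg _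
  have hwsq : ∀ x, ∑ β, w β x ^ 2 = ∑ s, ∑ i, c s i x ^ 2 := by
    intro x
    have h1 := hpol (fun α => f α x) (fun α => f α x)
    have h2 : ∑ β, w β x ^ 2 = ∑ α, f α x * f α x := by
      rw [← h1]
      exact Finset.sum_congr rfl fun β _ => by rw [hwx, sq]
    rw [h2, ← Fintype.sum_prod_type' (fun s i => c s i x ^ 2)]
    refine Finset.sum_congr rfl fun α _ => ?_
    rw [hf, sq]
  have hwpd : ∀ j x, ∑ β, pd j (w β) x ^ 2 = ∑ s, ∑ i, pd j (c s i) x ^ 2 := by
    intro j x
    have h1 := hpol (fun α => pd j (f α) x) (fun α => pd j (f α) x)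
    have h0 : ∀ β, pd j (w β) x = ∑ α, u β α * pd j (f α) x := by
      intro β
      have h00 := pd_sum f hf1 (u β) j x
      have e : w β = fun x => ∑ α, u β α * f α x := by rw [hw]
      rw [e]
      exact h00
    have h2 : ∑ β, pd j (w β) x ^ 2 = ∑ α, pd j (f α) x * pd j (f α) x := by
      rw [← h1]
      exact Finset.sum_congr rfl fun β _ => by rw [h0, sq]
    rw [h2, ← Fintype.sum_prod_type' (fun s i => pd j (c s i) x ^ 2)]
    refine Finset.sum_congr rfl fun α _ => ?_
    rw [hf, sq]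
  -- the diagonal of `M`
  have hfw : ∀ α x, f α x = ∑ β, u β α * w β x := by
    intro α x
    have h1 := hpol (Pi.single α 1) (fun α => f α x)
    have h2 : ∑ α', (Pi.single α (1 : ℝ) : σ × ι → ℝ) α' * f α' x = f α x := by
      simp [Pi.single_apply]
    rw [← h2, ← h1]
    refine Finset.sum_congr rfl fun β _ => ?_
    rw [hwx]
    congr 1
    simp [Pi.single_apply]
  have hdiag : ∀ α, ∫ x, f α x ^ 2 = ∑ β, l β * u β α ^ 2 := by
    intro α
    have h1 : ∀ x, f α x ^ 2 = ∑ β, u β α * (w β x * f α x) := by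
      intro x
      rw [sq]
      nth_rewrite 1 [hfw α x]
      rw [Finset.sum_mul]
      exact Finset.sum_congr rfl fun β _ => by ring
    have hi : ∀ β, Integrable (fun x => w β x * f α x) := fun β =>
      ((hw1 β).continuous.mul (hf1 α).continuous).integrable_of_hasCompactSupport
        ((hw2 β).mul_right)
    simp only [h1]
    rw [integral_finsetSum _ fun β _ => (hi β).const_mul _]
    refine Finset.sum_congr rfl fun β _ => ?_
    rw [integral_const_mul, hwf]
    ring
  -- the occupation numbers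
  obtain ⟨ν, hν⟩ : ∃ ν : σ × ι → σ → ℝ, ν = fun β s => l β * ∑ i, u β (s, i) ^ 2 := ⟨_, rfl⟩
  have hνe : ∀ β s, ν β s = l β * ∑ i, u β (s, i) ^ 2 := fun β s => by rw [hν]
  have hν0 : ∀ β s, 0 ≤ ν β s := fun β s => by
    rw [hνe]
    exact mul_nonneg (hl0 β) (Finset.sum_nonneg fun i _ => sq_nonneg _)
  have hνB : ∀ β s, ν β s ≤ B := by
    intro β s
    have h1 := hocc s (w β) (hw1 β).continuous (hw2 β)
    have h2 : ∀ i, ∫ x, w β x * c s i x = l β * u β (s, i) := by
      intro i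
      have := hwf β (s, i)
      rw [hf] at this
      exact this
    have h3 : ∫ x, w β x ^ 2 = l β := by
      have := hww β β
      rw [if_pos rfl] at this
      rw [← this]
      exact integral_congr_ae (ae_of_all _ fun x => sq _)
    rw [h3] at h1
    simp only [h2, mul_pow] at h1
    rw [← Finset.mul_sum] at h1
    rw [hνe]
    rcases (hl0 β).eq_or_lt with h | h
    · rw [← h, zero_mul]
      exact hB
    · have h4 : l β * (l β * ∑ i, u β (s, i) ^ 2) ≤ l β * B := by
        calc l β * (l β * ∑ i, u β (s, i) ^ 2) = l β ^ 2 * ∑ i, u β (s, i) ^ 2 := by ring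
          _ ≤ B * l β := h1
          _ = l β * B := mul_comm _ _
      exact le_of_mul_le_mul_left h4 h
  have hνl : ∀ β, ∑ s, ν β s = l β := by
    intro β
    simp only [hνe]
    rw [← Finset.mul_sum, ← Fintype.sum_prod_type' (fun s i => u β (s, i) ^ 2)]
    have h1 := huo β β
    rw [if_pos rfl] at h1
    have h2 : ∑ α : σ × ι, u β (α.1, α.2) ^ 2 = 1 := by
      rw [← h1]
      exact Finset.sum_congr rfl fun α _ => by rw [sq]
    rw [h2, mul_one]
  have hνs : ∀ s, ∑ β, ν β s = ∑ i, ∫ x, c s i x ^ 2 := by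
    intro s
    have h1 : ∀ i, ∫ x, c s i x ^ 2 = ∑ β, l β * u β (s, i) ^ 2 := by
      intro i
      have := hdiag (s, i)
      rw [hf] at this
      exact this
    simp only [h1, hνe]
    rw [Finset.sum_comm]
    exact Finset.sum_congr rfl fun β _ => Finset.mul_sum _ _ _
  have hls : ∑ β, l β = ∑ s, ∑ i, ∫ x, c s i x ^ 2 := by
    simp only [← hνl]
    rw [Finset.sum_comm]
    exact Finset.sum_congr rfl fun s _ => hνs s
  have hlΛ : ∀ β, l β ≤ Λ := fun β =>
    (Finset.single_le_sum (fun β _ => hl0 β) (Finset.mem_univ β)).trans (hls.le.trans hΛ)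
  have hsum : a * ∑ β, l β ^ (1 + 2 / (n : ℝ)) ≤
      (∑ s, ε s * ∑ i, ∫ x, c s i x ^ 2) + η * ∑ s, ∑ i, ∫ x, c s i x ^ 2 := by
    have h1 : ∀ β, a * l β ^ (1 + 2 / (n : ℝ)) ≤ (∑ s, ε s * ν β s) + η * l β := by
      intro β
      have := hbath (ν β) (fun s => ⟨hν0 β s, hνB β s⟩) ((hνl β).le.trans (hlΛ β))
      rw [hνl] at this
      linarith
    rw [Finset.mul_sum]
    refine (Finset.sum_le_sum fun β _ => h1 β).trans (le_of_eq ?_)
    rw [Finset.sum_add_distrib, ← Finset.mul_sum, hls, Finset.sum_comm]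
    congr 1
    refine Finset.sum_congr rfl fun s _ => ?_
    rw [← Finset.mul_sum, hνs]
  -- the inequality in dimension `m`
  have hg : (3 : ℝ) / 2 ≤ 1 + (n : ℝ) / 2 := by
    have : (1 : ℝ) ≤ n := by exact_mod_cast hn
    linarith
  have hT : Tm m (1 + (n : ℝ) / 2) := LTd.T_all m _ hg
  obtain ⟨e⟩ : Nonempty (σ × ι ≃ Fin (Fintype.card (σ × ι))) := ⟨Fintype.equivFin _⟩
  have hT1 := hT a ha (Fintype.card (σ × ι)) (fun i => w (e.symm i)) (fun i => l (e.symm i))
    (fun i => hw1 _) (fun i => hw2 _) (fun i j => by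
      rw [hww]
      by_cases h : i = j
      · rw [if_pos h, if_pos (by rw [h])]
      · rw [if_neg h, if_neg fun h' => h (e.symm.injective h')])
  have hp1 : pp (1 + (n : ℝ) / 2) = 1 + 2 / (n : ℝ) := by
    unfold LTd.pp
    have h2 : 1 + (n : ℝ) / 2 - 1 = (n : ℝ) / 2 := by ring
    have h1 : (n : ℝ) ≠ 0 := hn0.ne'
    rw [h2]
    field_simp
    ring
  have hp2 : pp (1 + (n : ℝ) / 2 + (m : ℝ) / 2) = 1 + 2 / ((m + n : ℕ) : ℝ) := by
    unfold LTd.pp
    have h1 : (m : ℝ) + n ≠ 0 := by positivity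
    have h2 : 1 + (n : ℝ) / 2 + (m : ℝ) / 2 - 1 = ((m : ℝ) + n) / 2 := by ring
    rw [h2]
    push_cast
    field_simp
    ring
  rw [hp1, hp2] at hT1
  have r1 : ∀ F : σ × ι → ℝ, ∑ i, F (e.symm i) = ∑ β, F β := fun F => e.symm.sum_comp F
  have r2 : ∀ x, ∑ i, w (e.symm i) x ^ 2 = ∑ s, ∑ i, c s i x ^ 2 := fun x => by
    rw [← hwsq x]
    exact r1 fun β => w β x ^ 2
  have r3 : ∀ x, ∑ k, ∑ i, pd k (w (e.symm i)) x ^ 2 = ∑ k, ∑ s, ∑ i, pd k (c s i) x ^ 2 := by
    intro x
    refine Finset.sum_congr rfl fun k _ => ?_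
    rw [← hwpd k x]
    exact r1 fun β => pd k (w β) x ^ 2
  have r4 : ∑ i, l (e.symm i) ^ (1 + 2 / (n : ℝ)) = ∑ β, l β ^ (1 + 2 / (n : ℝ)) :=
    r1 fun β => l β ^ (1 + 2 / (n : ℝ))
  simp only [r2, r3, r4] at hT1
  linarith

end Pool.Agent.W2helper90.SM
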