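import Pool.Agent.W2helper90.SM.Stm

/-!
# Project SM, piece SMO: smooth families
-/

set_option autoImplicit false

open MeasureTheory Set Filter Topology

namespace Pool.Agent.W2helper90.SM

open LTd (pd pp bco)

/-- continuous functions with compact support, integrated over `y` -/
theorem sect {m n : ℕ} {h : P m n → ℝ} (hc : Continuous h) (hs : HasCompactSupport h) :
    Continuous (fun x => ∫ y, h (x, y)) ∧ HasCompactSupport (fun x => ∫ y, h (x, y)) ∧
      ∫ x, ∫ y, h (x, y) = ∫ z, h z := by
  have hz : ∀ x y, y ∉ Prod.snd '' tsupport h → h (x, y) = 0 := by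
    intro x y hy
    exact image_eq_zero_of_notMem_tsupport fun h' => hy ⟨(x, y), h', rfl⟩
  have hzx : ∀ x y, x ∉ Prod.fst '' tsupport h → h (x, y) = 0 := by
    intro x y hy
    exact image_eq_zero_of_notMem_tsupport fun h' => hy ⟨(x, y), h', rfl⟩
  have hK : IsCompact (Prod.snd '' tsupport h) := hs.isCompact.image continuous_snd
  have hK' : IsCompact (Prod.fst '' tsupport h) := hs.isCompact.image continuous_fst
  refine ⟨?_, ?_, ?_⟩
  · have h1 : (fun x => ∫ y, h (x, y)) = fun x => ∫ y in Prod.snd '' tsupport h, h (x, y) := by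
      funext x
      exact (setIntegral_eq_integral_of_forall_compl_eq_zero fun y hy => hz x y hy).symm
    rw [h1]
    exact continuous_parametric_integral_of_continuous (f := fun x y => h (x, y)) hc hK
  · refine HasCompactSupport.intro hK' fun x hx => ?_
    simp [hzx x _ hx]
  · exact (integral_prod h (hc.integrable_of_hasCompactSupport hs)).symm

theorem sq_int {X : Type} [TopologicalSpace X] [MeasurableSpace X] [OpensMeasurableSpace X]
    {μ : Measure X} [IsFiniteMeasureOnCompacts μ] {f : X → ℝ} (hf : Continuous f)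
    (hs : HasCompactSupport f) : Integrable (fun x => f x ^ 2) μ :=
  Continuous.integrable_of_hasCompactSupport (f := fun x => f x ^ 2) (hf.pow 2)
    (hs.comp_left (g := fun t : ℝ => t ^ 2) (by simp))

theorem sect_nonneg {m n : ℕ} {h : P m n → ℝ} (h0 : ∀ z, 0 ≤ h z) (x : Fin m → ℝ) :
    0 ≤ ∫ y, h (x, y) := integral_nonneg fun _ => h0 _

theorem t_SMO (h1 : S_BATH) (h2 : S_GRAM) (h3 : S_CST) (h4 : S_COE) (h5 : S_PAR) : S_SMO := by
  classical
  intro m n hm hn A hA ι _ v hv hvs hocc
  obtain ⟨haa, hcst⟩ := h3 m n hm hn A hA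
  set p : ℝ := 1 + 2 / ((m + n : ℕ) : ℝ) with hp
  have hmn : (0 : ℝ) < ((m + n : ℕ) : ℝ) := by
    have : 0 < m + n := by omega
    exact_mod_cast this
  have hp0 : 0 < p := by positivity
  -- continuity and supports
  have cgx : ∀ i j, Continuous (gx (v i) j) := fun i j =>
    ((hv i).continuous_fderiv (by simp)).clm_apply continuous_const
  have cgy : ∀ i j, Continuous (gy (v i) j) := fun i j =>
    ((hv i).continuous_fderiv (by simp)).clm_apply continuous_const
  have sfd : ∀ i, HasCompactSupport (fderiv ℝ (v i)) := fun i => (hvs i).fderiv (𝕜 := ℝ)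
  have sgx : ∀ i j, HasCompactSupport (gx (v i) j) := fun i j =>
    (sfd i).comp_left (g := fun L : P m n →L[ℝ] ℝ => L (Pi.single j 1, 0)) rfl
  have sgy : ∀ i j, HasCompactSupport (gy (v i) j) := fun i j =>
    (sfd i).comp_left (g := fun L : P m n →L[ℝ] ℝ => L (0, Pi.single j 1)) rfl
  have hKc : IsCompact (⋃ i, tsupport (v i)) := isCompact_iUnion fun i => hvs i
  obtain ⟨r, hr⟩ := hKc.isBounded.subset_closedBall (0 : P m n)
  have hz : ∀ i (z : P m n), max r 0 < ‖z‖ → v i z = 0 ∧ fderiv ℝ (v i) z = 0 := by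
    intro i z hz
    have h0 : z ∉ tsupport (v i) := by
      intro h
      have := hr (Set.mem_iUnion.2 ⟨i, h⟩)
      rw [mem_closedBall_zero_iff] at this
      have h' := le_max_left r 0
      linarith
    refine ⟨image_eq_zero_of_notMem_tsupport h0, ?_⟩
    exact image_eq_zero_of_notMem_tsupport fun h => h0 (tsupport_fderiv_subset ℝ h)
  have hout : ∀ b : ℝ, 2 * (max r 0) + 1 ≤ b → ∀ (y : Fin n → ℝ), (∃ j, b / 2 ≤ |y j|) →
      ∀ x : Fin m → ℝ, max r 0 < ‖((x, y) : P m n)‖ := by
    intro b hb y ⟨j, hj⟩ x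
    have e1 : ‖y‖ ≤ ‖((x, y) : P m n)‖ := norm_snd_le ((x, y) : P m n)
    have e2 : |y j| ≤ ‖y‖ := by
      rw [← Real.norm_eq_abs]
      exact norm_le_pi_norm y j
    linarith
  -- the total quantities
  set E : P m n → ℝ := fun z => ∑ i, (∑ j, gx (v i) j z ^ 2 + ∑ j, gy (v i) j z ^ 2) with hE
  set ρ : (Fin m → ℝ) → ℝ := fun x => ∫ y, ∑ i, v i (x, y) ^ 2 with hρ
  have cV : Continuous fun z : P m n => ∑ i, v i z ^ 2 :=
    continuous_finsetSum _ fun i _ => (hv i).continuous.pow 2
  have sV : HasCompactSupport fun z : P m n => ∑ i, v i z ^ 2 := by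
    refine HasCompactSupport.intro hKc fun z hz => ?_
    refine Finset.sum_eq_zero fun i _ => ?_
    rw [image_eq_zero_of_notMem_tsupport fun h => hz (Set.mem_iUnion.2 ⟨i, h⟩)]
    ring
  obtain ⟨cρ, sρ, iρ⟩ := sect cV sV
  have hρ0 : ∀ x, 0 ≤ ρ x := fun x =>
    sect_nonneg (h := fun z : P m n => ∑ i, v i z ^ 2)
      (fun z => Finset.sum_nonneg fun i _ => sq_nonneg _) x
  have cρp : Continuous fun x => ρ x ^ p := cρ.rpow_const fun x => Or.inr hp0.le
  have sρp : HasCompactSupport fun x => ρ x ^ p := by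
    refine HasCompactSupport.intro sρ fun x hx => ?_
    have : ρ x = 0 := image_eq_zero_of_notMem_tsupport hx
    rw [this, Real.zero_rpow hp0.ne']
  have iρp : Integrable fun x => ρ x ^ p := cρp.integrable_of_hasCompactSupport sρp
  have hsqi : ∀ (f : P m n → ℝ), Continuous f → HasCompactSupport f →
      Continuous (fun z => f z ^ 2) ∧ HasCompactSupport (fun z => f z ^ 2) := by
    intro f hf hs
    exact ⟨hf.pow 2, hs.comp_left (g := fun t : ℝ => t ^ 2) (by simp)⟩
  -- integrability over the fibres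
  have hfib : ∀ (f : P m n → ℝ), Continuous f → HasCompactSupport f → ∀ x : Fin m → ℝ,
      Integrable fun y => f (x, y) := by
    intro f hf hs x
    refine (hf.comp (by fun_prop : Continuous fun y : Fin n → ℝ =>
      ((x, y) : P m n))).integrable_of_hasCompactSupport ?_
    refine HasCompactSupport.intro (hs.isCompact.image continuous_snd) fun y hy => ?_
    show f (x, y) = 0
    exact image_eq_zero_of_notMem_tsupport (f := f) fun h' => hy ⟨(x, y), h', rfl⟩
  set V2 : ℝ := ∫ z, ∑ i, v i z ^ 2 with hV2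
  have hV20 : 0 ≤ V2 := integral_nonneg fun z => Finset.sum_nonneg fun i _ => sq_nonneg _
  -- the inequality with the error `η`
  have key : ∀ η : ℝ, 0 < η →
      bco ((m : ℝ) / 2) (1 + (n : ℝ) / 2) (aa n A) * ∫ x, ρ x ^ p ≤ (∫ z, E z) + η * V2 := by
    intro η hη
    obtain ⟨b₀, hb₀, hbath⟩ := h1 n hn A (V2 + 1) η hA (by linarith) hη
    set b : ℝ := max b₀ (2 * max r 0 + 1) with hb
    have hbb : b₀ ≤ b := le_max_left _ _
    have hb2 : 2 * max r 0 + 1 ≤ b := le_max_right _ _
    have hb0 : 0 < b := lt_of_lt_of_le hb₀ hbb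
    have hbn : 0 < b ^ n := pow_pos hb0 n
    set q : ℝ := (√(b ^ n))⁻¹ with hq
    have hq2 : q ^ 2 = (b ^ n)⁻¹ := by rw [hq, inv_pow, Real.sq_sqrt hbn.le]
    -- Parseval for a function
    have hpar : ∀ (f : P m n → ℝ), Continuous f → (∀ z, max r 0 < ‖z‖ → f z = 0) →
        ∀ x : Fin m → ℝ, HasSum (fun k : Fin n → ℤ => q ^ 2 * (FC (fq b k) (fun y => f (x, y)) ^ 2 +
          FS (fq b k) (fun y => f (x, y)) ^ 2)) (∫ y, f (x, y) ^ 2) := by
      intro f hf hf0 x
      have e1 := h5 n b hb0 (fun y => f (x, y)) (hf.comp (by fun_prop)) (fun y hy =>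
        hf0 _ (hout b hb2 y hy x))
      have e2 := e1.mul_left (q ^ 2)
      have e3 : q ^ 2 * (b ^ n * ∫ y, f (x, y) ^ 2) = ∫ y, f (x, y) ^ 2 := by
        rw [hq2, ← mul_assoc, inv_mul_cancel₀ hbn.ne', one_mul]
      rwa [e3] at e2
    -- the coefficients
    obtain ⟨c, hc⟩ : ∃ c : (Fin n → ℤ) → ι × Bool → (Fin m → ℝ) → ℝ,
      c = fun k s x => q * (if s.2 then FC (fq b k) (fun y => v s.1 (x, y))
        else FS (fq b k) (fun y => v s.1 (x, y))) := ⟨_, rfl⟩
    have hct : ∀ k i x, c k (i, true) x = q * FC (fq b k) (fun y => v i (x, y)) := fun k i x => by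
      rw [hc]; simp
    have hcf : ∀ k i x, c k (i, false) x = q * FS (fq b k) (fun y => v i (x, y)) :=
      fun k i x => by rw [hc]; simp
    have hct' : ∀ k i, c k (i, true) = fun x => q * FC (fq b k) (fun y => v i (x, y)) :=
      fun k i => funext (hct k i)
    have hcf' : ∀ k i, c k (i, false) = fun x => q * FS (fq b k) (fun y => v i (x, y)) :=
      fun k i => funext (hcf k i)
    have hc1 : ∀ k s, ContDiff ℝ 1 (c k s) := by
      rintro k ⟨i, _ | _⟩
      · rw [hcf']
        exact contDiff_const.mul (h4 m n (v i) (hv i) (hvs i) (fq b k)).2.1.1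
      · rw [hct']
        exact contDiff_const.mul (h4 m n (v i) (hv i) (hvs i) (fq b k)).1.1
    have hc2 : ∀ k s, HasCompactSupport (c k s) := by
      rintro k ⟨i, _ | _⟩
      · rw [hcf']
        exact (h4 m n (v i) (hv i) (hvs i) (fq b k)).2.1.2.1.mul_left
      · rw [hct']
        exact (h4 m n (v i) (hv i) (hvs i) (fq b k)).1.2.1.mul_left
    have hpdmul : ∀ (F : (Fin m → ℝ) → ℝ), ContDiff ℝ 1 F → ∀ j x,
        pd j (fun x => q * F x) x = q * pd j F x := by
      intro F hF j x
      unfold pd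
      have := ((hF.differentiable (by simp)).differentiableAt (x := x)).hasFDerivAt.const_mul q
      rw [this.fderiv]
      simp
    have hpt : ∀ k i j x, pd j (c k (i, true)) x = q * FC (fq b k) (fun y => gx (v i) j (x, y)) := by
      intro k i j x
      rw [hct', hpdmul _ (h4 m n (v i) (hv i) (hvs i) (fq b k)).1.1,
        (h4 m n (v i) (hv i) (hvs i) (fq b k)).1.2.2]
    have hpf : ∀ k i j x, pd j (c k (i, false)) x = q * FS (fq b k) (fun y => gx (v i) j (x, y)) := by
      intro k i j x
      rw [hcf', hpdmul _ (h4 m n (v i) (hv i) (hvs i) (fq b k)).2.1.1,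
        (h4 m n (v i) (hv i) (hvs i) (fq b k)).2.1.2.2]
    have hsum2 : ∀ G : ι × Bool → ℝ, ∑ s, G s = ∑ i, (G (i, true) + G (i, false)) := by
      intro G
      rw [Fintype.sum_prod_type]
      exact Finset.sum_congr rfl fun i _ => Fintype.sum_bool _
    -- squares
    have hsq1 : ∀ k x, ∑ s, c k s x ^ 2 = ∑ i, q ^ 2 * (FC (fq b k) (fun y => v i (x, y)) ^ 2 +
        FS (fq b k) (fun y => v i (x, y)) ^ 2) := by
      intro k x
      rw [hsum2]
      refine Finset.sum_congr rfl fun i _ => ?_
      rw [hct, hcf]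
      ring
    have hsq2 : ∀ k j x, ∑ s, pd j (c k s) x ^ 2 =
        ∑ i, q ^ 2 * (FC (fq b k) (fun y => gx (v i) j (x, y)) ^ 2 +
        FS (fq b k) (fun y => gx (v i) j (x, y)) ^ 2) := by
      intro k j x
      rw [hsum2]
      refine Finset.sum_congr rfl fun i _ => ?_
      rw [hpt, hpf]
      ring
    have hsq3 : ∀ k x, ee b k * ∑ s, c k s x ^ 2 =
        ∑ j, ∑ i, q ^ 2 * (FC (fq b k) (fun y => gy (v i) j (x, y)) ^ 2 +
        FS (fq b k) (fun y => gy (v i) j (x, y)) ^ 2) := by
      intro k x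
      rw [hsq1, ee, Finset.sum_mul]
      refine Finset.sum_congr rfl fun j _ => ?_
      rw [Finset.mul_sum]
      refine Finset.sum_congr rfl fun i _ => ?_
      obtain ⟨e1, e2⟩ := (h4 m n (v i) (hv i) (hvs i) (fq b k)).2.2 j x
      rw [e1, e2]
      ring
    -- Parseval for the total
    have hP1 : ∀ x, HasSum (fun k => ∑ s, c k s x ^ 2) (ρ x) := by
      intro x
      simp only [hsq1]
      have e1 : ρ x = ∑ i, ∫ y, v i (x, y) ^ 2 := by
        rw [hρ]
        simp only
        exact integral_finsetSum _ fun i _ => hfib _ (hsqi _ (hv i).continuous (hvs i)).1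
          (hsqi _ (hv i).continuous (hvs i)).2 x
      rw [e1]
      exact hasSum_sum fun i _ => hpar (v i) (hv i).continuous (fun z hz' => (hz i z hz').1) x
    have hP2 : ∀ j x, HasSum (fun k => ∑ s, pd j (c k s) x ^ 2)
        (∑ i, ∫ y, gx (v i) j (x, y) ^ 2) := by
      intro j x
      simp only [hsq2]
      refine hasSum_sum fun i _ => hpar (gx (v i) j) (cgx i j) (fun z hz' => ?_) x
      unfold gx
      rw [(hz i z hz').2]
      rfl
    have hP3 : ∀ x, HasSum (fun k => ee b k * ∑ s, c k s x ^ 2)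
        (∑ j, ∑ i, ∫ y, gy (v i) j (x, y) ^ 2) := by
      intro x
      simp only [hsq3]
      refine hasSum_sum fun j _ => hasSum_sum fun i _ =>
        hpar (gy (v i) j) (cgy i j) (fun z hz' => ?_) x
      unfold gy
      rw [(hz i z hz').2]
      rfl
    have hc_int : ∀ k s, Integrable fun x => c k s x ^ 2 := fun k s =>
      sq_int (hc1 k s).continuous (hc2 k s)
    have hpd_int : ∀ k s j, Integrable fun x => pd j (c k s) x ^ 2 := by
      intro k s j
      have e1 : Continuous (pd j (c k s)) :=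
        ((hc1 k s).continuous_fderiv (by simp)).clm_apply continuous_const
      have e2 : HasCompactSupport (pd j (c k s)) :=
        ((hc2 k s).fderiv (𝕜 := ℝ)).comp_left
          (g := fun L : (Fin m → ℝ) →L[ℝ] ℝ => L (Pi.single j 1)) rfl
      exact sq_int e1 e2
    have iρ1 : Integrable ρ := cρ.integrable_of_hasCompactSupport sρ
    have iρ2 : ∫ x, ρ x = V2 := iρ
    -- the inequality for a finite set `K`
    have hK : ∀ K : Finset (Fin n → ℤ),
        bco ((m : ℝ) / 2) (1 + (n : ℝ) / 2) (aa n A) *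
          ∫ x, (∑ k ∈ K, ∑ s, c k s x ^ 2) ^ p ≤ (∫ z, E z) + η * V2 := by
      intro K
      have hmass : ∑ k ∈ K, ∑ s, ∫ x, c k s x ^ 2 ≤ V2 := by
        have e1 : ∑ k ∈ K, ∑ s, ∫ x, c k s x ^ 2 = ∫ x, ∑ k ∈ K, ∑ s, c k s x ^ 2 := by
          rw [integral_finsetSum _ fun k _ => integrable_finsetSum _ fun s _ => hc_int k s]
          refine Finset.sum_congr rfl fun k _ => ?_
          rw [integral_finsetSum _ fun s _ => hc_int k s]
        rw [e1, ← iρ2]
        refine integral_mono (integrable_finsetSum _ fun k _ => integrable_finsetSum _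
          fun s _ => hc_int k s) iρ1 fun x => ?_
        exact sum_le_hasSum K (fun k _ => Finset.sum_nonneg fun s _ => sq_nonneg _) (hP1 x)
      have hG := h2 m n hm hn (aa n A) η (V2 + 1) (A / b ^ n) haa hη.le (by positivity)
        K (ι × Bool) (fun k => ee b (k : Fin n → ℤ)) (fun k => c (k : Fin n → ℤ))
        (fun k s => hc1 k s) (fun k s => hc2 k s) ?_ ?_ ?_
      · -- conclusion
        have s1 : ∀ x, ∑ k : K, ∑ s, c (k : Fin n → ℤ) s x ^ 2 = ∑ k ∈ K, ∑ s, c k s x ^ 2 :=
          fun x => Finset.sum_coe_sort K fun k => ∑ s, c k s x ^ 2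
        have s2 : ∀ (j : Fin m) x, ∑ k : K, ∑ s, pd j (c (k : Fin n → ℤ) s) x ^ 2 =
            ∑ k ∈ K, ∑ s, pd j (c k s) x ^ 2 :=
          fun j x => Finset.sum_coe_sort K fun k => ∑ s, pd j (c k s) x ^ 2
        have s3 : ∑ k : K, ee b (k : Fin n → ℤ) * ∑ s, ∫ x, c (k : Fin n → ℤ) s x ^ 2 =
            ∑ k ∈ K, ee b k * ∑ s, ∫ x, c k s x ^ 2 :=
          Finset.sum_coe_sort K fun k => ee b k * ∑ s, ∫ x, c k s x ^ 2
        have s4 : ∑ k : K, ∑ s, ∫ x, c (k : Fin n → ℤ) s x ^ 2 =
            ∑ k ∈ K, ∑ s, ∫ x, c k s x ^ 2 :=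
          Finset.sum_coe_sort K fun k => ∑ s, ∫ x, c k s x ^ 2
        simp only [s1, s2, s3, s4] at hG
        refine hG.trans ?_
        have t1 : (∫ x, ∑ j, ∑ k ∈ K, ∑ s, pd j (c k s) x ^ 2) +
            ∑ k ∈ K, ee b k * ∑ s, ∫ x, c k s x ^ 2 ≤ ∫ z, E z := by
          have u1 : ∑ k ∈ K, ee b k * ∑ s, ∫ x, c k s x ^ 2 =
              ∫ x, ∑ k ∈ K, ee b k * ∑ s, c k s x ^ 2 := by
            rw [integral_finsetSum _ fun k _ =>
              (integrable_finsetSum _ fun s _ => hc_int k s).const_mul _]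
            refine Finset.sum_congr rfl fun k _ => ?_
            rw [integral_const_mul, integral_finsetSum _ fun s _ => hc_int k s]
          have i1 : Integrable fun x => ∑ j, ∑ k ∈ K, ∑ s, pd j (c k s) x ^ 2 :=
            integrable_finsetSum _ fun j _ => integrable_finsetSum _ fun k _ =>
              integrable_finsetSum _ fun s _ => hpd_int k s j
          have i2 : Integrable fun x => ∑ k ∈ K, ee b k * ∑ s, c k s x ^ 2 :=
            integrable_finsetSum _ fun k _ =>
              (integrable_finsetSum _ fun s _ => hc_int k s).const_mul _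
          rw [u1, ← integral_add i1 i2]
          have cE : Continuous E := continuous_finsetSum _ fun i _ =>
            (continuous_finsetSum _ fun j _ => (cgx i j).pow 2).add
              (continuous_finsetSum _ fun j _ => (cgy i j).pow 2)
          have sE : HasCompactSupport E := by
            refine HasCompactSupport.intro (isCompact_closedBall (0 : P m n) (max r 0))
              fun z hz' => ?_
            have hz2 : max r 0 < ‖z‖ := by
              rw [mem_closedBall_zero_iff, not_le] at hz'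
              exact hz'
            rw [hE]
            simp only
            refine Finset.sum_eq_zero fun i _ => ?_
            unfold gx gy
            rw [(hz i z hz2).2]
            simp
          obtain ⟨c1, c2, c3⟩ := sect cE sE
          rw [← c3]
          refine integral_mono (i1.add i2) (c1.integrable_of_hasCompactSupport c2) fun x => ?_
          have w1 : ∑ j, ∑ k ∈ K, ∑ s, pd j (c k s) x ^ 2 ≤
              ∑ j, ∑ i, ∫ y, gx (v i) j (x, y) ^ 2 :=
            Finset.sum_le_sum fun j _ => sum_le_hasSum K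
              (fun k _ => Finset.sum_nonneg fun s _ => sq_nonneg _) (hP2 j x)
          have w2 : ∑ k ∈ K, ee b k * ∑ s, c k s x ^ 2 ≤
              ∑ j, ∑ i, ∫ y, gy (v i) j (x, y) ^ 2 :=
            sum_le_hasSum K (fun k _ => mul_nonneg (Finset.sum_nonneg fun j _ => sq_nonneg _)
              (Finset.sum_nonneg fun s _ => sq_nonneg _)) (hP3 x)
          have w3 : ∫ y, E (x, y) = (∑ j, ∑ i, ∫ y, gx (v i) j (x, y) ^ 2) +
              ∑ j, ∑ i, ∫ y, gy (v i) j (x, y) ^ 2 := by
            have hx1 : ∀ i j, Integrable fun y => gx (v i) j (x, y) ^ 2 := fun i j =>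
              hfib _ (hsqi _ (cgx i j) (sgx i j)).1 (hsqi _ (cgx i j) (sgx i j)).2 x
            have hx2 : ∀ i j, Integrable fun y => gy (v i) j (x, y) ^ 2 := fun i j =>
              hfib _ (hsqi _ (cgy i j) (sgy i j)).1 (hsqi _ (cgy i j) (sgy i j)).2 x
            have w5 : ∀ i, Integrable fun y =>
                (∑ j, gx (v i) j (x, y) ^ 2) + ∑ j, gy (v i) j (x, y) ^ 2 := fun i =>
              (integrable_finsetSum _ fun j _ => hx1 i j).add
              (integrable_finsetSum _ fun j _ => hx2 i j)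
            rw [hE]
            simp only
            rw [integral_finsetSum _ fun i _ => w5 i]
            have w4 : ∀ i, ∫ y, ((∑ j, gx (v i) j (x, y) ^ 2) + ∑ j, gy (v i) j (x, y) ^ 2) =
                (∑ j, ∫ y, gx (v i) j (x, y) ^ 2) + ∑ j, ∫ y, gy (v i) j (x, y) ^ 2 := by
              intro i
              rw [integral_add (integrable_finsetSum _ fun j _ => hx1 i j)
                (integrable_finsetSum _ fun j _ => hx2 i j),
                integral_finsetSum _ fun j _ => hx1 i j, integral_finsetSum _ fun j _ => hx2 i j]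
            rw [Finset.sum_congr rfl fun i _ => w4 i, Finset.sum_add_distrib, Finset.sum_comm]
            congr 1
            exact Finset.sum_comm
          show _ ≤ ∫ y, E (x, y)
          rw [w3]
          exact add_le_add w1 w2
        have t2 : η * ∑ k ∈ K, ∑ s, ∫ x, c k s x ^ 2 ≤ η * V2 :=
          mul_le_mul_of_nonneg_left hmass hη.le
        linarith
      · -- the occupation
        intro k φ hφ hφs
        rw [hsum2]
        have o1 := hocc (fq b (k : Fin n → ℤ)) φ hφ hφs
        have o2 : ∀ i, (∫ x, φ x * c (k : Fin n → ℤ) (i, true) x) ^ 2 +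
            (∫ x, φ x * c (k : Fin n → ℤ) (i, false) x) ^ 2 =
            q ^ 2 * ((∫ x, φ x * FC (fq b k) fun y => v i (x, y)) ^ 2 +
              (∫ x, φ x * FS (fq b k) fun y => v i (x, y)) ^ 2) := by
          intro i
          have a1 : ∀ x, φ x * c (k : Fin n → ℤ) (i, true) x =
              q * (φ x * FC (fq b k) fun y => v i (x, y)) := fun x => by rw [hct]; ring
          have a2 : ∀ x, φ x * c (k : Fin n → ℤ) (i, false) x =
              q * (φ x * FS (fq b k) fun y => v i (x, y)) := fun x => by rw [hcf]; ring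
          simp only [a1, a2]
          rw [integral_const_mul, integral_const_mul]
          ring
        rw [Finset.sum_congr rfl fun i _ => o2 i, ← Finset.mul_sum, hq2]
        calc (b ^ n)⁻¹ * ∑ i, ((∫ x, φ x * FC (fq b k) fun y => v i (x, y)) ^ 2 +
              (∫ x, φ x * FS (fq b k) fun y => v i (x, y)) ^ 2) ≤
            (b ^ n)⁻¹ * (A * ∫ x, φ x ^ 2) :=
              mul_le_mul_of_nonneg_left o1 (by positivity)
          _ = A / b ^ n * ∫ x, φ x ^ 2 := by rw [div_eq_mul_inv]; ring
      · -- the bathtub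
        intro ν hν1 hν2
        obtain ⟨ν', hν'⟩ : ∃ ν' : (Fin n → ℤ) → ℝ,
          ν' = fun k => if h : k ∈ K then ν ⟨k, h⟩ else 0 := ⟨_, rfl⟩
        have e0 : ∀ k : K, ν' k = ν k := fun k => by
          rw [hν']
          simp
        have e1 : ∑ k ∈ K, ν' k = ∑ k, ν k := by
          rw [← Finset.sum_coe_sort K ν']
          exact Finset.sum_congr rfl fun k _ => e0 k
        have e2 : ∑ k ∈ K, ee b k * ν' k = ∑ k : K, ee b (k : Fin n → ℤ) * ν k := by
          rw [← Finset.sum_coe_sort K fun k => ee b k * ν' k]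
          exact Finset.sum_congr rfl fun k _ => by rw [e0 k]
        have e3 := hbath b hbb K ν' (fun k hk => by
          have := hν1 ⟨k, hk⟩
          rw [← e0 ⟨k, hk⟩] at this
          exact this) (by rw [e1]; exact hν2)
        rw [e1, e2] at e3
        exact e3
      · have : ∑ k : K, ∑ s, ∫ x, c (k : Fin n → ℤ) s x ^ 2 =
            ∑ k ∈ K, ∑ s, ∫ x, c k s x ^ 2 :=
          Finset.sum_coe_sort K fun k => ∑ s, ∫ x, c k s x ^ 2
        rw [this]
        linarith
    -- the limit
    have hlim : Tendsto (fun K : Finset (Fin n → ℤ) =>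
        ∫ x, (∑ k ∈ K, ∑ s, c k s x ^ 2) ^ p) atTop (𝓝 (∫ x, ρ x ^ p)) := by
      refine tendsto_integral_filter_of_dominated_convergence (fun x => ρ x ^ p)
        (Eventually.of_forall fun K => ?_) (Eventually.of_forall fun K => ae_of_all _ fun x => ?_)
        iρp (ae_of_all _ fun x => ?_)
      · refine Continuous.aestronglyMeasurable ?_
        exact (continuous_finsetSum _ fun k _ => continuous_finsetSum _ fun s _ =>
          (hc1 k s).continuous.pow 2).rpow_const fun x => Or.inr hp0.le
      · have e1 : 0 ≤ ∑ k ∈ K, ∑ s, c k s x ^ 2 :=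
          Finset.sum_nonneg fun k _ => Finset.sum_nonneg fun s _ => sq_nonneg _
        rw [Real.norm_eq_abs, abs_of_nonneg (Real.rpow_nonneg e1 _)]
        exact Real.rpow_le_rpow e1 (sum_le_hasSum K
          (fun k _ => Finset.sum_nonneg fun s _ => sq_nonneg _) (hP1 x)) hp0.le
      · exact ((Real.continuousAt_rpow_const _ _ (Or.inr hp0.le)).tendsto).comp (hP1 x)
    exact le_of_tendsto' (hlim.const_mul _) hK
  have key2 : bco ((m : ℝ) / 2) (1 + (n : ℝ) / 2) (aa n A) * ∫ x, ρ x ^ p ≤ ∫ z, E z := by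
    refine le_of_forall_pos_le_add fun δ hδ => ?_
    have h6 := key (δ / (V2 + 1)) (by positivity)
    have h7 : δ / (V2 + 1) * V2 ≤ δ := by
      rw [div_mul_eq_mul_div, div_le_iff₀ (by linarith)]
      nlinarith
    linarith
  have hApos : 0 < A ^ (2 / ((m + n : ℕ) : ℝ)) := Real.rpow_pos_of_pos hA _
  rw [← hcst]
  calc bco ((m : ℝ) / 2) (1 + (n : ℝ) / 2) (aa n A) * A ^ (2 / ((m + n : ℕ) : ℝ)) *
        ∫ x, ρ x ^ p =
      A ^ (2 / ((m + n : ℕ) : ℝ)) *
        (bco ((m : ℝ) / 2) (1 + (n : ℝ) / 2) (aa n A) * ∫ x, ρ x ^ p) := by ring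
    _ ≤ A ^ (2 / ((m + n : ℕ) : ℝ)) * ∫ z, E z := mul_le_mul_of_nonneg_left key2 hApos.le

end Pool.Agent.W2helper90.SM
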