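import Pool.Agent.W2helper93.SM.MOL
import Pool.Agent.W2helper24.SM.BES
import Pool.Agent.W2helper24.SM.COE
import Pool.Agent.W2helper24.SM.PAR
import Pool.Agent.W2helper28.SMs.BATH
import Pool.Agent.W2helper28.SMs.LAT
import Pool.Agent.W2helper71.SM.CST
import Pool.Agent.W2helper90.SM.GRAM
import Pool.Agent.W2helper90.SM.SMO
import Pool.Agent.W2helper90.SM.APP2

/-!
# Project SM: assembly, and the forms for potentials
-/

set_option autoImplicit false

open MeasureTheory Set Filter Topology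
open scoped ENNReal

namespace Pool.Agent.W2helper90.SM

noncomputable section

open LTd (pd WGradC)

theorem a_SMO : S_SMO :=
  t_SMO (t_BATH t_LAT) t_GRAM t_CST Pool.Agent.W2helper24.SM.coe Pool.Agent.W2helper24.SM.par

theorem a_GW : S_GW := t_GW (t_APP a_SMO) t_FUB

theorem a_MOL : S_MOL := t_MOL a_GW Pool.Agent.W2helper24.SM.bes t_FUB

/-- Young's inequality with the constants of the kinetic inequality and of the eigenvalue sums -/
theorem young {d : ℕ} (hd : 1 ≤ d) {L : ℝ} (hL : 0 < L) {A : ℝ} (hA : 0 < A) {a b : ℝ}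
    (ha : 0 ≤ a) (hb : 0 ≤ b) :
    b * a ≤ ((d : ℝ) / (d + 2) * (2 / (L * ((d : ℝ) + 2))) ^ (2 / (d : ℝ))) * A ^ (-(2 / (d : ℝ))) *
      a ^ (1 + 2 / (d : ℝ)) + A * L * b ^ (1 + (d : ℝ) / 2) := by
  have hd0 : (0 : ℝ) < d := by exact_mod_cast hd
  obtain ⟨p, hp⟩ : ∃ p : ℝ, p = 1 + 2 / (d : ℝ) := ⟨_, rfl⟩
  obtain ⟨q, hq⟩ : ∃ q : ℝ, q = 1 + (d : ℝ) / 2 := ⟨_, rfl⟩
  have hp0 : 0 < p := by rw [hp]; positivity
  have hq0 : 0 < q := by rw [hq]; positivity
  have hpq : p.HolderConjugate q := by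
    rw [Real.holderConjugate_iff]
    refine ⟨?_, ?_⟩
    · rw [hp]
      have : 0 < 2 / (d : ℝ) := by positivity
      linarith
    · rw [hp, hq]
      field_simp
      ring
  have hLA : 0 < 2 / (L * A * ((d : ℝ) + 2)) := by positivity
  obtain ⟨c, hc⟩ : ∃ c : ℝ, c = (2 / (L * A * ((d : ℝ) + 2))) ^ (2 / (d : ℝ)) := ⟨_, rfl⟩
  have hc0 : 0 < c := by rw [hc]; exact Real.rpow_pos_of_pos hLA _
  obtain ⟨s, hs⟩ : ∃ s : ℝ, s = c ^ (1 / p) := ⟨_, rfl⟩
  have hs0 : 0 < s := by rw [hs]; exact Real.rpow_pos_of_pos hc0 _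
  have hy := Real.young_inequality_of_nonneg (mul_nonneg hs0.le ha) (div_nonneg hb hs0.le) hpq
  have e0 : s * a * (b / s) = b * a := by
    field_simp
  have e1 : (s * a) ^ p = c * a ^ p := by
    rw [Real.mul_rpow hs0.le ha, hs, ← Real.rpow_mul hc0.le, one_div, inv_mul_cancel₀ hp0.ne',
      Real.rpow_one]
  have e2 : (b / s) ^ q = L * A * ((d : ℝ) + 2) / 2 * b ^ q := by
    rw [Real.div_rpow hb hs0.le, hs, ← Real.rpow_mul hc0.le, hc, ← Real.rpow_mul hLA.le]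
    have e3 : 2 / (d : ℝ) * (1 / p * q) = 1 := by
      rw [hp, hq]
      field_simp
      ring
    rw [e3, Real.rpow_one]
    field_simp
  rw [e0, e1, e2] at hy
  have e4 : (2 / (L * ((d : ℝ) + 2))) ^ (2 / (d : ℝ)) * A ^ (-(2 / (d : ℝ))) = c := by
    rw [Real.rpow_neg hA.le, ← div_eq_mul_inv, ← Real.div_rpow (by positivity) hA.le, hc]
    congr 1
    field_simp
  have e5 : (d : ℝ) / (d + 2) = 1 / p := by
    rw [hp]
    field_simp
  have e6 : ((d : ℝ) + 2) / 2 = q := by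
    rw [hq]
    ring
  calc b * a ≤ c * a ^ p / p + L * A * ((d : ℝ) + 2) / 2 * b ^ q / q := hy
    _ = (1 / p * c) * a ^ p + A * L * b ^ q := by
        rw [show L * A * ((d : ℝ) + 2) / 2 = L * A * (((d : ℝ) + 2) / 2) by ring, e6]
        field_simp
    _ = _ := by
        rw [← e4, ← e5, hp, hq]
        ring

theorem youngE {d : ℕ} (hd : 1 ≤ d) {L : ℝ} (hL : 0 < L) {A : ℝ} (hA : 0 < A) (a b : ℝ≥0∞) :
    b * a ≤ ENNReal.ofReal (((d : ℝ) / (d + 2) * (2 / (L * ((d : ℝ) + 2))) ^ (2 / (d : ℝ))) *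
        A ^ (-(2 / (d : ℝ)))) * a ^ (1 + 2 / (d : ℝ)) +
      ENNReal.ofReal (A * L) * b ^ (1 + (d : ℝ) / 2) := by
  have hd0 : (0 : ℝ) < d := by exact_mod_cast hd
  have hC : 0 < ((d : ℝ) / (d + 2) * (2 / (L * ((d : ℝ) + 2))) ^ (2 / (d : ℝ))) *
        A ^ (-(2 / (d : ℝ))) := by positivity
  have hp : 0 < 1 + 2 / (d : ℝ) := by positivity
  have hq : 0 < 1 + (d : ℝ) / 2 := by positivity
  by_cases h1 : a = ⊤
  · have e : ENNReal.ofReal (((d : ℝ) / (d + 2) * (2 / (L * ((d : ℝ) + 2))) ^ (2 / (d : ℝ))) *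
        A ^ (-(2 / (d : ℝ)))) * ⊤ = ⊤ := by
      refine ENNReal.mul_top ?_
      rw [Ne, ENNReal.ofReal_eq_zero, not_le]
      exact hC
    rw [h1, ENNReal.top_rpow_of_pos hp, e, top_add]
    exact le_top
  by_cases h2 : b = ⊤
  · have e : ENNReal.ofReal (A * L) * ⊤ = ⊤ := by
      refine ENNReal.mul_top ?_
      rw [Ne, ENNReal.ofReal_eq_zero, not_le]
      positivity
    rw [h2, ENNReal.top_rpow_of_pos hq, e, add_top]
    exact le_top
  have h3 : a = ENNReal.ofReal a.toReal := (ENNReal.ofReal_toReal h1).symm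
  have h4 : b = ENNReal.ofReal b.toReal := (ENNReal.ofReal_toReal h2).symm
  rw [h3, h4, ← ENNReal.ofReal_mul ENNReal.toReal_nonneg,
    ENNReal.ofReal_rpow_of_nonneg ENNReal.toReal_nonneg hp.le,
    ENNReal.ofReal_rpow_of_nonneg ENNReal.toReal_nonneg hq.le,
    ← ENNReal.ofReal_mul hC.le, ← ENNReal.ofReal_mul (by positivity),
    ← ENNReal.ofReal_add (by positivity) (by positivity)]
  exact ENNReal.ofReal_le_ofReal
    (young hd hL hA ENNReal.toReal_nonneg ENNReal.toReal_nonneg)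

/-- the form for potentials of a kinetic inequality -/
theorem dual {d : ℕ} (hd : 1 ≤ d) {α : Type} [MeasureSpace α] {A : ℝ} (hA : 0 < A) (T : ℝ≥0∞)
    (r V : α → ℝ≥0∞) (hV : Measurable V)
    (h : ENNReal.ofReal (LTd.Kcl d) * ∫⁻ x, r x ^ (1 + 2 / (d : ℝ)) ≤
      ENNReal.ofReal (A ^ (2 / (d : ℝ))) * T) :
    ∫⁻ x, V x * r x ≤ T +
      ENNReal.ofReal (A * Pool.Agent.W2helper90.RT.Lcl d) * ∫⁻ x, V x ^ (1 + (d : ℝ) / 2) := by
  obtain ⟨hL, hK⟩ := Pool.Agent.W2helper90.RT.t_CST2.2.2 d hd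
  have hK0 : 0 ≤ LTd.Kcl d := by
    rw [hK]
    positivity
  have hAp : 0 < A ^ (2 / (d : ℝ)) := Real.rpow_pos_of_pos hA _
  calc ∫⁻ x, V x * r x
      ≤ ∫⁻ x, (ENNReal.ofReal (LTd.Kcl d * A ^ (-(2 / (d : ℝ)))) * r x ^ (1 + 2 / (d : ℝ)) +
        ENNReal.ofReal (A * Pool.Agent.W2helper90.RT.Lcl d) * V x ^ (1 + (d : ℝ) / 2)) := by
        refine lintegral_mono fun x => ?_
        have := youngE hd hL hA (r x) (V x)
        rw [← hK] at this
        exact this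
    _ = (∫⁻ x, ENNReal.ofReal (LTd.Kcl d * A ^ (-(2 / (d : ℝ)))) * r x ^ (1 + 2 / (d : ℝ))) +
        ∫⁻ x, ENNReal.ofReal (A * Pool.Agent.W2helper90.RT.Lcl d) * V x ^ (1 + (d : ℝ) / 2) :=
        lintegral_add_right _ ((hV.pow_const _).const_mul _)
    _ ≤ T + ENNReal.ofReal (A * Pool.Agent.W2helper90.RT.Lcl d) *
          ∫⁻ x, V x ^ (1 + (d : ℝ) / 2) := by
        refine add_le_add ?_ ?_
        · rw [lintegral_const_mul' _ _ ENNReal.ofReal_ne_top, Real.rpow_neg hA.le,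
            ENNReal.ofReal_mul hK0, mul_comm (ENNReal.ofReal (LTd.Kcl d)), mul_assoc,
            ENNReal.ofReal_inv_of_pos hAp]
          calc (ENNReal.ofReal (A ^ (2 / (d : ℝ))))⁻¹ * (ENNReal.ofReal (LTd.Kcl d) *
                ∫⁻ x, r x ^ (1 + 2 / (d : ℝ)))
              ≤ (ENNReal.ofReal (A ^ (2 / (d : ℝ))))⁻¹ *
                (ENNReal.ofReal (A ^ (2 / (d : ℝ))) * T) := by gcongr
            _ = T := by
                rw [← mul_assoc, ENNReal.inv_mul_cancel, one_mul]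
                · rw [Ne, ENNReal.ofReal_eq_zero, not_le]
                  exact hAp
                · exact ENNReal.ofReal_ne_top
        · rw [lintegral_const_mul' _ _ ENNReal.ofReal_ne_top]

end

end Pool.Agent.W2helper90.SM
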