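import Pool.Agent.W2helper90.SM.Fat
import Pool.Agent.W2helper90.SM.SMO

/-!
# Project SM: smooth families on `ℝ^(m+n)`
-/

set_option autoImplicit false

open MeasureTheory Set Filter Topology

namespace Pool.Agent.W2helper90.SM

open LTd (pd)

/-- the test functions -/
noncomputable def pc {m n : ℕ} (ξ : Fin n → ℝ) (φ : (Fin m → ℝ) → ℝ) (z : Fin (m + n) → ℝ) : ℝ :=
  φ (fx z) * Real.cos (dt ξ (fy z))

/-- the test functions -/
noncomputable def ps {m n : ℕ} (ξ : Fin n → ℝ) (φ : (Fin m → ℝ) → ℝ) (z : Fin (m + n) → ℝ) : ℝ :=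
  φ (fx z) * Real.sin (dt ξ (fy z))

/-- the condition for real functions on `ℝ^(m+n)` -/
def OccR {m n M : ℕ} (A : ℝ) (f : Fin M → (Fin (m + n) → ℝ) → ℝ) : Prop :=
  ∀ (ξ : Fin n → ℝ) (φ : (Fin m → ℝ) → ℝ), Continuous φ → HasCompactSupport φ →
    ∑ a, ((∫ z, pc ξ φ z * f a z) ^ 2 + (∫ z, ps ξ φ z * f a z) ^ 2) ≤ A * ∫ x, φ x ^ 2

theorem cont_fx {m n : ℕ} : Continuous (fx : (Fin (m + n) → ℝ) → (Fin m → ℝ)) := by
  unfold fx; fun_prop

theorem cont_fy {m n : ℕ} : Continuous (fy : (Fin (m + n) → ℝ) → (Fin n → ℝ)) := by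
  unfold fy; fun_prop

theorem cont_dt {n : ℕ} (ξ : Fin n → ℝ) : Continuous (dt ξ) := by
  unfold dt; fun_prop

theorem cont_pc {m n : ℕ} (ξ : Fin n → ℝ) {φ : (Fin m → ℝ) → ℝ} (hφ : Continuous φ) :
    Continuous (pc (n := n) ξ φ) :=
  (hφ.comp cont_fx).mul (Real.continuous_cos.comp ((cont_dt ξ).comp cont_fy))

theorem cont_ps {m n : ℕ} (ξ : Fin n → ℝ) {φ : (Fin m → ℝ) → ℝ} (hφ : Continuous φ) :
    Continuous (ps (n := n) ξ φ) :=
  (hφ.comp cont_fx).mul (Real.continuous_sin.comp ((cont_dt ξ).comp cont_fy))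

theorem fx_append {m n : ℕ} (x : Fin m → ℝ) (y : Fin n → ℝ) : fx (Fin.append x y) = x := by
  funext i; simp [fx]

theorem fy_append {m n : ℕ} (x : Fin m → ℝ) (y : Fin n → ℝ) : fy (Fin.append x y) = y := by
  funext i; simp [fy]

theorem flat (hS : S_SMO) {m n : ℕ} (hm : 1 ≤ m) (hn : 1 ≤ n) {A : ℝ} (hA : 0 < A) {M : ℕ}
    (w : Fin M → (Fin (m + n) → ℝ) → ℝ) (hw : ∀ a, ContDiff ℝ 1 (w a))
    (hs : ∀ a, HasCompactSupport (w a)) (hocc : OccR A w) :
    ENNReal.ofReal (LTd.Kcl (m + n)) *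
      lhs (1 + 2 / ((m + n : ℕ) : ℝ)) (fun z => ENNReal.ofReal (∑ a, w a z ^ 2)) ≤
    ENNReal.ofReal (A ^ (2 / ((m + n : ℕ) : ℝ))) *
      ENNReal.ofReal (∑ a, ∑ i, ∫ z, pd i (w a) z ^ 2) := by
  set p : ℝ := 1 + 2 / ((m + n : ℕ) : ℝ) with hp
  have hp0 : 0 < p := by positivity
  set v : Fin M → P m n → ℝ := fun a z => w a (Q m n z) with hv
  have hv1 : ∀ a, ContDiff ℝ 1 (v a) := fun a => (hw a).comp (Q m n).contDiff
  have hv2 : ∀ a, HasCompactSupport (v a) := fun a =>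
    (hs a).comp_homeomorph (Q m n).toHomeomorph
  have hint : ∀ (ψ : (Fin (m + n) → ℝ) → ℝ), Continuous ψ → ∀ a,
      Integrable fun z => ψ z * w a z := fun ψ hψ a =>
    (hψ.mul (hw a).continuous).integrable_of_hasCompactSupport ((hs a).mul_left)
  have hoc : Occ A v := by
    intro ξ φ hφ hφs
    refine le_trans (le_of_eq ?_) (hocc ξ φ hφ hφs)
    refine Finset.sum_congr rfl fun a _ => ?_
    congr 2
    · rw [Q_fubini (hint _ (cont_pc ξ hφ) a)]
      refine integral_congr_ae (ae_of_all _ fun x => ?_)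
      simp only [FC]
      rw [← integral_const_mul]
      refine integral_congr_ae (ae_of_all _ fun y => ?_)
      simp only [hv, Q_apply, pc, fx_append, fy_append]
      ring
    · rw [Q_fubini (hint _ (cont_ps ξ hφ) a)]
      refine integral_congr_ae (ae_of_all _ fun x => ?_)
      simp only [FS]
      rw [← integral_const_mul]
      refine integral_congr_ae (ae_of_all _ fun y => ?_)
      simp only [hv, Q_apply, ps, fx_append, fy_append]
      ring
  have h1 := hS m n hm hn A hA (Fin M) v hv1 hv2 hoc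
  -- the right hand side
  have cpd : ∀ a i, Continuous (pd i (w a)) := fun a i =>
    ((hw a).continuous_fderiv (by simp)).clm_apply continuous_const
  have spd : ∀ a i, HasCompactSupport (pd i (w a)) := fun a i =>
    ((hs a).fderiv (𝕜 := ℝ)).comp_left
      (g := fun L : (Fin (m + n) → ℝ) →L[ℝ] ℝ => L (Pi.single i 1)) rfl
  have e1 : ∫ z, ∑ a, (∑ j, gx (v a) j z ^ 2 + ∑ j, gy (v a) j z ^ 2) =
      ∑ a, ∑ i, ∫ z, pd i (w a) z ^ 2 := by
    have e2 : ∀ z, ∑ a, (∑ j, gx (v a) j z ^ 2 + ∑ j, gy (v a) j z ^ 2) =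
        ∑ a, ∑ i, pd i (w a) (Q m n z) ^ 2 := by
      intro z
      refine Finset.sum_congr rfl fun a _ => ?_
      rw [Fin.sum_univ_add]
      congr 1
      · exact Finset.sum_congr rfl fun j _ => by rw [hv]; simp only; rw [gx_Q (hw a)]
      · exact Finset.sum_congr rfl fun j _ => by rw [hv]; simp only; rw [gy_Q (hw a)]
    simp only [e2]
    rw [Q_int (fun z => ∑ a, ∑ i, pd i (w a) z ^ 2),
      integral_finsetSum _ fun a _ => integrable_finsetSum _ fun i _ => sq_int (cpd a i) (spd a i)]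
    refine Finset.sum_congr rfl fun a _ => ?_
    rw [integral_finsetSum _ fun i _ => sq_int (cpd a i) (spd a i)]
  rw [e1] at h1
  -- the left hand side
  have cV : Continuous fun z : P m n => ∑ a, v a z ^ 2 :=
    continuous_finsetSum _ fun i _ => (hv1 i).continuous.pow 2
  have sV : HasCompactSupport fun z : P m n => ∑ a, v a z ^ 2 := by
    refine HasCompactSupport.intro (isCompact_iUnion fun a => hv2 a) fun z hz => ?_
    refine Finset.sum_eq_zero fun i _ => ?_
    rw [image_eq_zero_of_notMem_tsupport fun h => hz (Set.mem_iUnion.2 ⟨i, h⟩)]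
    ring
  obtain ⟨cρ, sρ, -⟩ := sect cV sV
  have hρ0 : ∀ x : Fin m → ℝ, 0 ≤ ∫ y, ∑ a, v a (x, y) ^ 2 := fun x =>
    sect_nonneg (h := fun z : P m n => ∑ a, v a z ^ 2)
      (fun z => Finset.sum_nonneg fun i _ => sq_nonneg _) x
  have iρp : Integrable fun x => (∫ y, ∑ a, v a (x, y) ^ 2) ^ p := by
    refine (cρ.rpow_const fun x => Or.inr hp0.le).integrable_of_hasCompactSupport ?_
    refine HasCompactSupport.intro sρ fun x hx => ?_
    have : ∫ y, ∑ a, v a (x, y) ^ 2 = 0 :=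
      image_eq_zero_of_notMem_tsupport (f := fun x => ∫ y, ∑ a, v a (x, y) ^ 2) hx
    rw [this, Real.zero_rpow hp0.ne']
  have e3 : lhs p (fun z => ENNReal.ofReal (∑ a, w a z ^ 2)) =
      ENNReal.ofReal (∫ x, (∫ y, ∑ a, v a (x, y) ^ 2) ^ p) := by
    rw [ofReal_integral_eq_lintegral_ofReal iρp
      (ae_of_all _ fun x => Real.rpow_nonneg (hρ0 x) _)]
    unfold lhs
    refine lintegral_congr fun x => ?_
    rw [← ENNReal.ofReal_rpow_of_nonneg (hρ0 x) hp0.le]
    congr 1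
    rw [ofReal_integral_eq_lintegral_ofReal]
    · rfl
    · refine (cV.comp (by fun_prop : Continuous fun y : Fin n → ℝ =>
        ((x, y) : P m n))).integrable_of_hasCompactSupport ?_
      refine HasCompactSupport.intro (sV.isCompact.image continuous_snd) fun y hy => ?_
      show ∑ a, v a (x, y) ^ 2 = 0
      exact image_eq_zero_of_notMem_tsupport (f := fun z : P m n => ∑ a, v a z ^ 2)
        fun h' => hy ⟨(x, y), h', rfl⟩
    · exact ae_of_all _ fun y => Finset.sum_nonneg fun i _ => sq_nonneg _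
  have hK : 0 ≤ LTd.Kcl (m + n) := by
    unfold LTd.Kcl
    positivity
  rw [e3, ← ENNReal.ofReal_mul hK, ← ENNReal.ofReal_mul (Real.rpow_nonneg hA.le _)]
  exact ENNReal.ofReal_le_ofReal h1

end Pool.Agent.W2helper90.SM
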