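import Pool.Agent.Helper717.LT.Defs
import Pool.Agent.R282.KO.Loc

/-!
# Project SM (helper90): section means. The Lieb-Thirring kinetic inequality with the semiclassical
constant for the integrals of the density over sections of bounded measure

`x ∈ ℝ^m`, `y ∈ ℝ^n`, `d = m + n`, `m, n ≥ 1`. Statements of the pieces, with proofs in the comments.
-/

set_option autoImplicit false

open MeasureTheory Set Filter Topology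

namespace Pool.Agent.W2helper90.SM

noncomputable section

open LTd (pd pp bco WGradC)

/-- `ℝ^m × ℝ^n` -/
abbrev P (m n : ℕ) : Type := (Fin m → ℝ) × (Fin n → ℝ)

/-- `ξ · y` -/
def dt {n : ℕ} (ξ y : Fin n → ℝ) : ℝ := ∑ j, ξ j * y j

/-- the cosine transform -/
def FC {n : ℕ} (ξ : Fin n → ℝ) (h : (Fin n → ℝ) → ℝ) : ℝ := ∫ y, Real.cos (dt ξ y) * h y

/-- the sine transform -/
def FS {n : ℕ} (ξ : Fin n → ℝ) (h : (Fin n → ℝ) → ℝ) : ℝ := ∫ y, Real.sin (dt ξ y) * h y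

/-- the frequencies of the cube of side `b` -/
def fq {n : ℕ} (b : ℝ) (k : Fin n → ℤ) : Fin n → ℝ := fun j => 2 * Real.pi / b * k j

/-- their energies -/
def ee {n : ℕ} (b : ℝ) (k : Fin n → ℤ) : ℝ := ∑ j, fq b k j ^ 2

/-- the constant of the bathtub principle -/
def aa (n : ℕ) (A : ℝ) : ℝ :=
  (n : ℝ) / (n + 2) * (4 * Real.pi) * (Real.Gamma ((n : ℝ) / 2 + 1) / A) ^ (2 / (n : ℝ))

/-- the partial derivatives with respect to `x` -/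
def gx {m n : ℕ} (v : P m n → ℝ) (i : Fin m) (z : P m n) : ℝ := fderiv ℝ v z (Pi.single i 1, 0)

/-- the partial derivatives with respect to `y` -/
def gy {m n : ℕ} (v : P m n → ℝ) (j : Fin n) (z : P m n) : ℝ := fderiv ℝ v z (0, Pi.single j 1)

/-- **PIECE LAT (lattice sum).** The cells `h (k + [0,1)^n)` are disjoint of volume `h^n`; for `η` in the
cell of `k` one has `|η| ≤ h |k| + h √n`, and if `h |k| ≤ s` then
`(s + h √n)² - |η|² ≥ (s + h √n)² - (h |k| + h √n)² ≥ s² - h² |k|²`. And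
`∫ max (r² - |η|²) 0 = r^(n+2) π^(n/2) / Γ(n/2+2)` (layer cake, or polar coordinates,
`EuclideanSpace.volume_ball`; compare the constants in `Helper717/LT`, `W2helper5/RT/CST2.lean`). -/
def S_LAT : Prop := ∀ (n : ℕ), 1 ≤ n → ∀ h s : ℝ, 0 < h → 0 ≤ s → ∀ K : Finset (Fin n → ℤ),
  h ^ n * ∑ k ∈ K, max (s ^ 2 - h ^ 2 * ∑ j, (k j : ℝ) ^ 2) 0 ≤
    (s + h * √n) ^ (n + 2) * (Real.pi ^ ((n : ℝ) / 2) / Real.Gamma ((n : ℝ) / 2 + 2))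

/-- **PIECE BATH (bathtub).** From LAT. Let `t = ∑ ν`. If `aa n A * t^(2/n) ≤ η` the left side is `≤ 0`.
Otherwise `t ∈ [t₀, Λ]`, `t₀ = (η / aa n A)^(n/2)`; let `s = √μ`, `μ = 4π (t Γ(n/2+1) / A)^(2/n)`. By LAT with
`h = 2π/b` (`ee b k = h² |k|²`), `∑ ee ν ≥ μ t - ∑ (μ - ee)_+ ν ≥ μ t - A b^(-n) ∑ (μ - ee)_+ ≥
μ t - A L (s + h √n)^(n+2)`, `L = (4π)^(-n/2) / Γ(n/2+2)`, and
`μ t - A L s^(n+2) = n/(n+2) μ t = aa n A * t^(1+2/n)`. `A L ((s + h √n)^(n+2) - s^(n+2)) ≤ η t₀` for small `h`,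
uniformly for the bounded `s`. -/
def S_BATH : Prop := ∀ (n : ℕ), 1 ≤ n → ∀ A Λ η : ℝ, 0 < A → 0 < Λ → 0 < η → ∃ b₀ : ℝ, 0 < b₀ ∧
  ∀ b : ℝ, b₀ ≤ b → ∀ K : Finset (Fin n → ℤ), ∀ ν : (Fin n → ℤ) → ℝ,
  (∀ k ∈ K, 0 ≤ ν k ∧ ν k ≤ A / b ^ n) → ∑ k ∈ K, ν k ≤ Λ →
  aa n A * (∑ k ∈ K, ν k) ^ (1 + 2 / (n : ℝ)) - η * ∑ k ∈ K, ν k ≤ ∑ k ∈ K, ee b k * ν k

/-- **PIECE GRAM.** From `LTd.T_all m (1 + n/2)` (`Helper717/LT/P_T_all.lean`).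

Proof. Let `M (s,i) (s',i') = ∫ c s i * c s' i'` (real symmetric, `PosSemidef`), `U` the orthogonal matrix
of eigenvectors, `l β` the eigenvalues, `w β = ∑ U (s,i) β c s i`; then `∫ w β w β' = l β δ`,
`∑ w β ² = ∑ c²`, and the same for the derivatives. With `ν β s = l β * ∑ i U (s,i) β ²` one has
`∑ s, ν β s = l β`, `∑ β, ν β s = ∑ i, ∫ c s i ²`, and by the hypothesis with `φ = w β`
(`∫ w β * c s i = l β U (s,i) β`) `l β ² ∑ i U² ≤ B l β`, so `ν β s ≤ B`. Hence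
`∑ β, a * l β ^ (1+2/n) ≤ ∑ s, ε s * ∑ i ∫ c² + η ∑ β, l β`. Exponents: `pp (1 + n/2) = 1 + 2/n`,
`pp (1 + n/2 + m/2) = 1 + 2/(m+n)`. (Reindex `σ × ι ≃ Fin _` for `Tm`.) -/
def S_GRAM : Prop := ∀ (m n : ℕ), 1 ≤ m → 1 ≤ n → ∀ (a η Λ B : ℝ), 0 < a → 0 ≤ η → 0 ≤ B →
  ∀ (σ ι : Type) [Fintype σ] [Fintype ι] (ε : σ → ℝ) (c : σ → ι → (Fin m → ℝ) → ℝ),
  (∀ s i, ContDiff ℝ 1 (c s i)) → (∀ s i, HasCompactSupport (c s i)) →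
  (∀ s, ∀ φ : (Fin m → ℝ) → ℝ, Continuous φ → HasCompactSupport φ →
    ∑ i, (∫ x, φ x * c s i x) ^ 2 ≤ B * ∫ x, φ x ^ 2) →
  (∀ ν : σ → ℝ, (∀ s, 0 ≤ ν s ∧ ν s ≤ B) → ∑ s, ν s ≤ Λ →
    a * (∑ s, ν s) ^ (1 + 2 / (n : ℝ)) - η * ∑ s, ν s ≤ ∑ s, ε s * ν s) →
  ∑ s, ∑ i, ∫ x, c s i x ^ 2 ≤ Λ →
  bco ((m : ℝ) / 2) (1 + (n : ℝ) / 2) a *
      ∫ x, (∑ s, ∑ i, c s i x ^ 2) ^ (1 + 2 / ((m + n : ℕ) : ℝ)) ≤
    (∫ x, ∑ j, ∑ s, ∑ i, pd j (c s i) x ^ 2) + (∑ s, ε s * ∑ i, ∫ x, c s i x ^ 2) +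
      η * ∑ s, ∑ i, ∫ x, c s i x ^ 2

/-- **PIECE CST.** `bco h g a = (JJ h g * a^(g-1))^(1/(g+h-1))`, `g = 1 + n/2`, `h = m/2`; for `LTd.Kcl` use
`Pool.Agent.W2helper90.RT.t_CST2.2.2` (`W2helper5/RT/CST2.lean`):
`Kcl d = d/(d+2) * (2 / (Lcl d (d+2)))^(2/d)`, `Lcl d = ((4π)^(d/2) Γ(d/2+2))⁻¹`. -/
def S_CST : Prop := ∀ (m n : ℕ), 1 ≤ m → 1 ≤ n → ∀ A : ℝ, 0 < A → 0 < aa n A ∧
  bco ((m : ℝ) / 2) (1 + (n : ℝ) / 2) (aa n A) * A ^ (2 / ((m + n : ℕ) : ℝ)) = LTd.Kcl (m + n)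

/-- **PIECE COE (the coefficients).** Differentiation under the integral sign; integration by parts in
the variable `y j` (`integral_mul_fderiv_eq_neg_fderiv_mul_of_integrable` or similar). -/
def S_COE : Prop := ∀ (m n : ℕ) (v : P m n → ℝ), ContDiff ℝ 1 v → HasCompactSupport v →
  ∀ ξ : Fin n → ℝ,
  (ContDiff ℝ 1 (fun x => FC ξ fun y => v (x, y)) ∧
    HasCompactSupport (fun x => FC ξ fun y => v (x, y)) ∧
    ∀ i x, pd i (fun x => FC ξ fun y => v (x, y)) x = FC ξ fun y => gx v i (x, y)) ∧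
  (ContDiff ℝ 1 (fun x => FS ξ fun y => v (x, y)) ∧
    HasCompactSupport (fun x => FS ξ fun y => v (x, y)) ∧
    ∀ i x, pd i (fun x => FS ξ fun y => v (x, y)) x = FS ξ fun y => gx v i (x, y)) ∧
  ∀ j x, (FC ξ fun y => gy v j (x, y)) = ξ j * (FS ξ fun y => v (x, y)) ∧
    (FS ξ fun y => gy v j (x, y)) = -(ξ j * (FC ξ fun y => v (x, y)))

/-- **PIECE PAR (Parseval on the cube).** `UnitAddTorus`, `hasSum_sq_mFourierCoeff`,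
`mFourierCoeff_eq_integral` (`Mathlib/Analysis/Fourier/AddCircleMulti.lean`), applied to
`t ↦ h (b t)` on `(-1/2, 1/2]^n`. -/
def S_PAR : Prop := ∀ (n : ℕ) (b : ℝ), 0 < b → ∀ h : (Fin n → ℝ) → ℝ, Continuous h →
  (∀ y : Fin n → ℝ, (∃ j, b / 2 ≤ |y j|) → h y = 0) →
  HasSum (fun k : Fin n → ℤ => FC (fq b k) h ^ 2 + FS (fq b k) h ^ 2) (b ^ n * ∫ y, h y ^ 2)

/-- the condition on the family: the operator `∑ |v⟩⟨v|` is at most `A` on the functions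
`φ(x) e^(i ξ · y)`, `‖φ‖ = 1` -/
def Occ {m n : ℕ} {ι : Type} [Fintype ι] (A : ℝ) (v : ι → P m n → ℝ) : Prop :=
  ∀ (ξ : Fin n → ℝ) (φ : (Fin m → ℝ) → ℝ), Continuous φ → HasCompactSupport φ →
    ∑ i, ((∫ x, φ x * FC ξ fun y => v i (x, y)) ^ 2 + (∫ x, φ x * FS ξ fun y => v i (x, y)) ^ 2) ≤
      A * ∫ x, φ x ^ 2

/-- **PIECE SMO (smooth families).** From BATH, GRAM, CST, COE, PAR.

Proof. Let `b` be large (all supports in `|y j| < b/2`), `η > 0`, `Λ > ∑ ∫ v²`, `K` a finite set of `k`,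
`σ = K`, `c k (i, true) = b^(-n/2) FC (fq b k) v_i`, `c k (i, false) = b^(-n/2) FS (fq b k) v_i`,
`B = A / b^n`, `ε k = ee b k`. By COE and PAR (Bessel's inequality for every `x`, applied to `v i (x, ·)`,
`gx v i j (x, ·)`, `gy v i j (x, ·)`) the right side of GRAM is at most `∫ ∑ (gx² + gy²) + η ∑ ∫ v²`; the left
side converges to `bco * ∫ x, (∫ y, ∑ v²)^p` for `K → ∞` (PAR; dominated convergence). `η → 0`. -/
def S_SMO : Prop := ∀ (m n : ℕ), 1 ≤ m → 1 ≤ n → ∀ A : ℝ, 0 < A →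
  ∀ (ι : Type) [Fintype ι] (v : ι → P m n → ℝ), (∀ i, ContDiff ℝ 1 (v i)) →
  (∀ i, HasCompactSupport (v i)) → Occ A v →
  LTd.Kcl (m + n) * ∫ x, (∫ y, ∑ i, v i (x, y) ^ 2) ^ (1 + 2 / ((m + n : ℕ) : ℝ)) ≤
    A ^ (2 / ((m + n : ℕ) : ℝ)) * ∫ z, ∑ i, (∑ j, gx (v i) j z ^ 2 + ∑ j, gy (v i) j z ^ 2)

/-! ## Functions on `ℝ^(m+n)` -/

/-- the first `m` coordinates -/
def fx {m n : ℕ} (z : Fin (m + n) → ℝ) : Fin m → ℝ := fun i => z (Fin.castAdd n i)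

/-- the last `n` coordinates -/
def fy {m n : ℕ} (z : Fin (m + n) → ℝ) : Fin n → ℝ := fun j => z (Fin.natAdd m j)

/-- **PIECE FUB.** `(x, y) ↦ Fin.append x y` preserves the measure (compare the map in
`W2helper5/RT/FLAT.lean`), it is a continuous linear equivalence, the inverse is `z ↦ (fx z, fy z)`. -/
def S_FUB : Prop := ∀ (m n : ℕ), ∃ e : P m n ≃L[ℝ] (Fin (m + n) → ℝ),
  (∀ x y, e (x, y) = Fin.append x y) ∧ (∀ z, e.symm z = (fx z, fy z)) ∧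
  MeasurePreserving e volume volume ∧ MeasurePreserving e.symm volume volume ∧
  (∀ i : Fin m, e (Pi.single i 1, 0) = Pi.single (Fin.castAdd n i) 1) ∧
  ∀ j : Fin n, e (0, Pi.single j 1) = Pi.single (Fin.natAdd m j) 1

/-- the condition for complex functions on `ℝ^(m+n)` -/
def OccC {m n N : ℕ} (A : ℝ) (u : Fin N → (Fin (m + n) → ℝ) → ℂ) : Prop :=
  ∀ (ξ : Fin n → ℝ) (φ : (Fin m → ℝ) → ℝ), Continuous φ → HasCompactSupport φ →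
    ∑ i, ‖∫ z, ((φ (fx z) : ℝ) : ℂ) * Complex.exp ((dt ξ (fy z) : ℝ) * Complex.I) * u i z‖ ^ 2 ≤
      A * ∫ x, φ x ^ 2

/-- **PIECE APP (`H¹` with bounded support).** From SMO, FUB, `Approx2` (`W2helper12/LT/Approx2.lean`),
real and imaginary parts as in `W2helper17/RT/SOB.lean`.

Proof. (1) Real and imaginary parts `f_a` (a family of `2 N` functions): adding OccC for `ξ` and `-ξ`,
`∑ |∫ φ e^(i ξ y) f_a|² ≤ A ∫ φ²`. (2) Let `χ` be smooth with compact support, `χ = 1` on the ball of radius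
`R`, `χ = 0` outside of the ball of radius `R + 1`, and let `F j a` be the approximations of `Approx2`; then
`χ F j a → χ f_a = f_a` in `L²` and the same for the gradients. (3) By Minkowski's inequality
`(∑ |∫ φ e^(iξy) χ F j a|²)^(1/2) ≤ (A^(1/2) + C_R δ_j) (∫ φ²)^(1/2)`,
`δ_j² = ∑ ∫ (χ F j a - f_a)²`, `C_R² =` volume of `{|y| ≤ R + 1}`. (4) SMO with
`A_j = (A^(1/2) + C_R δ_j)²`, transported by FUB, and `j → ∞`: for the left side pass to a subsequence such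
that `∫ y, ∑ (χ F j a)² → ∫ y, ∑ f_a²` for a.e. `x` and use Fatou's lemma. -/
def S_APP : Prop := ∀ (m n : ℕ), 1 ≤ m → 1 ≤ n → ∀ A R : ℝ, 0 < A → 0 < R →
  ∀ (N : ℕ) (u : Fin N → (Fin (m + n) → ℝ) → ℂ) (g : Fin N → Fin (m + n) → (Fin (m + n) → ℝ) → ℂ),
  (∀ a, WGradC (u a) (g a)) → (∀ a z, R < ‖z‖ → u a z = 0) → OccC A u →
  ENNReal.ofReal (LTd.Kcl (m + n)) * ∫⁻ x : Fin m → ℝ,
      (∫⁻ y : Fin n → ℝ, ENNReal.ofReal (∑ a, ‖u a (Fin.append x y)‖ ^ 2)) ^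
        (1 + 2 / ((m + n : ℕ) : ℝ)) ≤
    ENNReal.ofReal (A ^ (2 / ((m + n : ℕ) : ℝ))) * ENNReal.ofReal (∑ a, ∑ i, ∫ z, ‖g a i z‖ ^ 2)

/-- `∑ |u⟩⟨u| ≤ w` -/
def BW {d N : ℕ} (w : (Fin d → ℝ) → ENNReal) (u : Fin N → (Fin d → ℝ) → ℂ) : Prop :=
  ∀ ψ : (Fin d → ℝ) → ℂ, Measurable ψ → (∃ C : ℝ, ∀ z, ‖ψ z‖ ≤ C) →
    (∃ R : ℝ, ∀ z, R < ‖z‖ → ψ z = 0) →
    ENNReal.ofReal (∑ a, ‖∫ z, ψ z * u a z‖ ^ 2) ≤ ∫⁻ z, w z * ENNReal.ofReal (‖ψ z‖ ^ 2)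

/-- **PIECE GW (all of `H¹`).** From APP, FUB.

Proof. Cut off with `χ_R(z)`, `0 ≤ χ_R ≤ 1`, smooth, `χ_R = 1` for `‖z‖ ≤ R`, `χ_R = 0` for `‖z‖ ≥ 2 R`, `|∇χ_R| ≤ C/R`
(compare `Helper717/LT/P_cutoff.lean`, `W2helper11/RT/CUT.lean`): `χ_R u` has the weak gradient
`χ_R g + u ∇χ_R`, the energies converge for `R → ∞` and `|χ_R u|² → |u|²`, increasing up to constants
(Fatou's lemma or monotone convergence on the left). OccC for `χ_R u`: BW with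
`ψ = φ(x) e^(iξy) χ_R`, `∫⁻ w |ψ|² ≤ ∫⁻ φ(x)² ∫⁻ w(x,y) dy dx ≤ A ∫ φ²` (FUB, Tonelli). -/
def S_GW : Prop := ∀ (m n : ℕ), 1 ≤ m → 1 ≤ n → ∀ A : ℝ, 0 < A →
  ∀ (N : ℕ) (u : Fin N → (Fin (m + n) → ℝ) → ℂ) (g : Fin N → Fin (m + n) → (Fin (m + n) → ℝ) → ℂ),
  (∀ a, WGradC (u a) (g a)) → ∀ w : (Fin (m + n) → ℝ) → ENNReal, Measurable w → BW w u →
  (∀ᵐ x : Fin m → ℝ, ∫⁻ y : Fin n → ℝ, w (Fin.append x y) ≤ ENNReal.ofReal A) →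
  ENNReal.ofReal (LTd.Kcl (m + n)) * ∫⁻ x : Fin m → ℝ,
      (∫⁻ y : Fin n → ℝ, ENNReal.ofReal (∑ a, ‖u a (Fin.append x y)‖ ^ 2)) ^
        (1 + 2 / ((m + n : ℕ) : ℝ)) ≤
    ENNReal.ofReal (A ^ (2 / ((m + n : ℕ) : ℝ))) * ENNReal.ofReal (∑ a, ∑ i, ∫ z, ‖g a i z‖ ^ 2)

/-- **PIECE BES (Bessel's inequality).** For an orthonormal system and a bounded measurable function
`r`: `∑ |∫ ψ r u_a|² = ∑ |⟨conj(ψ r), u_a⟩|² ≤ ∫ |ψ r|²` (`Orthonormal.sum_inner_products_le` in `L²`, or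
directly from `0 ≤ ∫ |ψ' - ∑ c_a u_a|²`). If `u_a = 0` outside of `D` take `r` = indicator of `D`. -/
def S_BES : Prop := ∀ (d N : ℕ) (u : Fin N → (Fin d → ℝ) → ℂ), (∀ a, MemLp (u a) 2 volume) →
  (∀ a b, ∫ z, (starRingEnd ℂ) (u a z) * u b z = if a = b then 1 else 0) →
  ∀ r : (Fin d → ℝ) → ℝ, Measurable r → (∃ C : ℝ, ∀ z, |r z| ≤ C) →
  BW (fun z => ENNReal.ofReal (r z ^ 2)) (fun a z => (r z : ℂ) * u a z)

/-- **PIECE MOL (mollification in one direction).** From GW, BES, FUB with `n = 1`.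

Proof. For `q ∈ ℝ` let `u_a^q(z) = h(y - q) u_a(z)`, `y` = the last coordinate, with the weak gradient
`h(y - q) g + h'(y - q) u e_last`; by BES and `∫ h² = 1` the hypotheses of GW are true with `A = 1`,
`w = h(y - q)²`. Integrate over `q`: `∫ dq ∫ |h(y-q) g_a,i + h'(y-q) u_a δ|² = ∫ |g_a,i|² + δ ∫ h'² ∫ |u_a|²`,
because `∫ h h' = 0`. (Tonelli.) -/
def S_MOL : Prop := ∀ (m : ℕ), 1 ≤ m →
  ∀ (N : ℕ) (u : Fin N → (Fin (m + 1) → ℝ) → ℂ) (g : Fin N → Fin (m + 1) → (Fin (m + 1) → ℝ) → ℂ),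
  (∀ a, WGradC (u a) (g a)) →
  (∀ a b, ∫ z, (starRingEnd ℂ) (u a z) * u b z = if a = b then 1 else 0) →
  ∀ h : ℝ → ℝ, ContDiff ℝ 1 h → HasCompactSupport h → ∫ t, h t ^ 2 = 1 →
  ENNReal.ofReal (LTd.Kcl (m + 1)) * ∫⁻ z : Fin (m + 1) → ℝ,
      (∫⁻ t : ℝ, ENNReal.ofReal (h t ^ 2 * ∑ a, ‖u a (z + Pi.single (Fin.last m) t)‖ ^ 2)) ^
        (1 + 2 / ((m + 1 : ℕ) : ℝ)) ≤
    ENNReal.ofReal ((∑ a, ∑ i, ∫ z, ‖g a i z‖ ^ 2) + N * ∫ t, deriv h t ^ 2)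

end

end Pool.Agent.W2helper90.SM
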